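import Pool.Agent.Zk78.TD.SQ1
import Pool.Agent.Zk41.TD.Defs

/-! Few three-digit palindromes in a box are divisible by the square of a large prime. -/

set_option autoImplicit false

open Finset Filter

namespace Pool.Agent.Zk78.TD

lemma pl_lt {b a c : ℕ} (ha : a < b) (hc : c < b) : pl b a c < b ^ 3 := by
  unfold pl
  obtain ⟨k, rfl⟩ : ∃ k, b = a + 1 + k := ⟨b - (a + 1), by omega⟩
  obtain ⟨l, hl⟩ : ∃ l, a + 1 + k = c + 1 + l := ⟨a + 1 + k - (c + 1), by omega⟩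
  set b := a + 1 + k with hb
  have h1 : a + 1 ≤ b := by omega
  have h2 : c + 1 ≤ b := by omega
  have h3 : (a + 1) * (b ^ 2 + 1) ≤ b * (b ^ 2 + 1) := Nat.mul_le_mul_right _ h1
  have h4 : (c + 1) * b ≤ b * b := Nat.mul_le_mul_right _ h2
  nlinarith

/-- the primes of the sum -/
noncomputable def QQ (b : ℕ) (ζ : ℝ) : Finset ℕ :=
  (range (b ^ 2)).filter (fun q => q.Prime ∧ (b : ℝ) ^ ζ ≤ q ∧ q ^ 2 < b ^ 3)

lemma card_QQ {b : ℕ} (hb : 1 ≤ b) (ζ : ℝ) : ((QQ b ζ).card : ℝ) ≤ 2 * (b : ℝ) ^ (3 / 2 : ℝ) := by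
  classical
  have hx : (1 : ℝ) ≤ b := by exact_mod_cast hb
  have h1 : (1 : ℝ) ≤ (b : ℝ) ^ (3 / 2 : ℝ) := Real.one_le_rpow hx (by norm_num)
  have h2 : QQ b ζ ⊆ range (⌊(b : ℝ) ^ (3 / 2 : ℝ)⌋₊ + 1) := by
    intro q hq
    unfold QQ at hq
    rw [mem_filter] at hq
    rw [mem_range, Nat.lt_add_one_iff]
    refine Nat.le_floor ?_
    have h3 : (q : ℝ) ^ 2 ≤ (b : ℝ) ^ 3 := by exact_mod_cast hq.2.2.2.le
    have h4 : ((b : ℝ) ^ (3 / 2 : ℝ)) ^ 2 = (b : ℝ) ^ 3 := by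
      rw [← Real.rpow_natCast, ← Real.rpow_mul (by positivity), ← Real.rpow_natCast]
      norm_num
    rw [← h4] at h3
    exact (pow_le_pow_iff_left₀ (by positivity) (by positivity) two_ne_zero).mp h3
  have h5 := Finset.card_le_card h2
  rw [Finset.card_range] at h5
  have h6 : ((QQ b ζ).card : ℝ) ≤ (⌊(b : ℝ) ^ (3 / 2 : ℝ)⌋₊ : ℝ) + 1 := by exact_mod_cast h5
  have h7 := Nat.floor_le (by positivity : (0 : ℝ) ≤ (b : ℝ) ^ (3 / 2 : ℝ))
  linarith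

lemma card_dvd {b : ℕ} (hb : 2 ≤ b) {ζ : ℝ} (hζ : 0 < ζ) (Q : Finset ℕ)
    (hQ : ∀ q ∈ Q, q.Prime ∧ q ∣ b ∧ (b : ℝ) ^ ζ ≤ q) : (Q.card : ℝ) ≤ 1 / ζ := by
  classical
  have hx : (1 : ℝ) < b := by
    have : 1 < b := by omega
    exact_mod_cast this
  have h1 : Q ⊆ b.primeFactors := by
    intro q hq
    rw [Nat.mem_primeFactors]
    exact ⟨(hQ q hq).1, (hQ q hq).2.1, by omega⟩
  have h2 : ∏ q ∈ Q, q ≤ b := by
    refine Nat.le_of_dvd (by omega) ?_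
    exact (Finset.prod_dvd_prod_of_subset _ _ _ h1).trans (Nat.prod_primeFactors_dvd b)
  have h3 : ((b : ℝ) ^ ζ) ^ Q.card ≤ ∏ q ∈ Q, (q : ℝ) := by
    rw [← Finset.prod_const]
    exact Finset.prod_le_prod (fun _ _ => by positivity) fun q hq => (hQ q hq).2.2
  have h4 : ∏ q ∈ Q, (q : ℝ) ≤ b := by
    have h5 : ((∏ q ∈ Q, q : ℕ) : ℝ) ≤ (b : ℝ) := Nat.cast_le.mpr h2
    rwa [Nat.cast_prod] at h5
  have h5 : (b : ℝ) ^ (ζ * Q.card) ≤ (b : ℝ) ^ (1 : ℝ) := by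
    rw [Real.rpow_mul (by positivity), Real.rpow_natCast, Real.rpow_one]
    exact h3.trans h4
  have h6 : ζ * Q.card ≤ 1 := (Real.rpow_le_rpow_left_iff hx).mp h5
  rw [le_div_iff₀ hζ]; linarith

lemma sum_sq {b : ℕ} {ζ : ℝ} (hb : 1 ≤ b) (Q : Finset ℕ) (N : ℕ)
    (hQ : ∀ q ∈ Q, (b : ℝ) ^ ζ ≤ q ∧ q < N) : ∑ q ∈ Q, (1 : ℝ) / (q : ℝ) ^ 2 ≤ 2 / (b : ℝ) ^ ζ := by
  classical
  have hx : (0 : ℝ) < b := by exact_mod_cast hb
  have hp : (0 : ℝ) < (b : ℝ) ^ ζ := Real.rpow_pos_of_pos hx _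
  set k := ⌈(b : ℝ) ^ ζ⌉₊ with hk
  have hk1 : 1 ≤ k := Nat.one_le_iff_ne_zero.mpr (Nat.ceil_pos.mpr hp).ne'
  have h1 : Q ⊆ Ioo (k - 1) N := by
    intro q hq
    rw [mem_Ioo]
    have := Nat.ceil_le.mpr (hQ q hq).1
    exact ⟨by omega, (hQ q hq).2⟩
  calc ∑ q ∈ Q, (1 : ℝ) / (q : ℝ) ^ 2 ≤ ∑ q ∈ Ioo (k - 1) N, (1 : ℝ) / (q : ℝ) ^ 2 :=
        Finset.sum_le_sum_of_subset_of_nonneg h1 fun _ _ _ => by positivity
    _ = ∑ q ∈ Ioo (k - 1) N, ((q : ℝ) ^ 2)⁻¹ := by simp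
    _ ≤ 2 / (((k - 1 : ℕ) : ℝ) + 1) := sum_Ioo_inv_sq_le (k - 1) N
    _ ≤ 2 / (b : ℝ) ^ ζ := by
        refine div_le_div_of_nonneg_left (by norm_num) hp ?_
        have h2 : (((k - 1 : ℕ) : ℝ) + 1) = k := by
          have : ((k - 1 + 1 : ℕ) : ℝ) = k := by
            congr 1; omega
          rw [← this]; push_cast; ring
        rw [h2]
        exact Nat.le_ceil _

/-- the bound with explicit constants -/
lemma main_bd {b B1 B2 a0 c0 : ℕ} {ζ η : ℝ} (hb : 2 ≤ b) (hζ : 0 < ζ) (hη : 0 < η) (hη2 : η < 1 / 50)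
    (hB2 : B2 ≤ b) (hX : (b : ℝ) ^ (8 / 5 : ℝ) ≤ B1 * B2)
    (h21 : (B2 : ℝ) * (b : ℝ) ^ (-(2 * η)) ≤ B1) (h12 : (B1 : ℝ) ≤ B2 * (b : ℝ) ^ (-η))
    (ha : 1 ≤ a0) (hab : a0 + B1 ≤ b) (hcb : c0 + B2 ≤ b) (S : Finset (ℕ × ℕ))
    (hS : ∀ z ∈ S, z ∈ bx B1 B2 a0 c0 ∧ ∃ q : ℕ, q.Prime ∧ (b : ℝ) ^ ζ ≤ q ∧
      q ^ 2 ∣ pl b z.1 z.2) :
    (S.card : ℝ) ≤ (2 / ζ + 32) * (b : ℝ) ^ (-(min ζ (min (η / 2) (1 / 25)))) * (B1 * B2) := by
  classical
  set x : ℝ := (b : ℝ) with hxdef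
  have hx1 : (1 : ℝ) ≤ x := by
    have : 1 ≤ b := by omega
    rw [hxdef]
    exact_mod_cast this
  have hx0 : (0 : ℝ) < x := by linarith
  set X : ℝ := (B1 : ℝ) * B2 with hXdef
  set δ : ℝ := min ζ (min (η / 2) (1 / 25)) with hδ
  have hδζ : δ ≤ ζ := min_le_left _ _
  have hδη : δ ≤ η / 2 := (min_le_right _ _).trans (min_le_left _ _)
  have hδ3 : δ ≤ 1 / 25 := (min_le_right _ _).trans (min_le_right _ _)
  have hX0 : 0 < X := lt_of_lt_of_le (Real.rpow_pos_of_pos hx0 _) hX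
  have mono : ∀ s t : ℝ, s ≤ t → x ^ s ≤ x ^ t := fun s t h => Real.rpow_le_rpow_of_exponent_le hx1 h
  have hB1B2 : (B1 : ℝ) ≤ B2 := by
    refine h12.trans ?_
    have : x ^ (-η) ≤ 1 := Real.rpow_le_one_of_one_le_of_nonpos hx1 (by linarith)
    have h0 : (0 : ℝ) ≤ B2 := by positivity
    nlinarith
  have hB12 : B1 ≤ B2 := by exact_mod_cast hB1B2
  have hB2x : (B2 : ℝ) ≤ x := by rw [hxdef]; exact_mod_cast hB2
  -- union bound
  have hsub : S ⊆ (QQ b ζ).biUnion (fun q => Pq b B1 B2 a0 c0 q) := by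
    intro z hz
    obtain ⟨hzb, q, hq, hqζ, hqd⟩ := hS z hz
    rw [Finset.mem_biUnion]
    have hzb' := hzb
    unfold bx at hzb
    simp only [mem_product, mem_Ico] at hzb
    have hlt : pl b z.1 z.2 < b ^ 3 := pl_lt (by omega) (by omega)
    have hpos : 0 < pl b z.1 z.2 := by
      unfold pl
      have : 0 < z.1 := by omega
      positivity
    have hq2 : q ^ 2 < b ^ 3 := (Nat.le_of_dvd hpos hqd).trans_lt hlt
    refine ⟨q, ?_, ?_⟩
    · unfold QQ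
      rw [mem_filter, mem_range]
      refine ⟨?_, hq, hqζ, hq2⟩
      have h5 : q ^ 2 < (b ^ 2) ^ 2 := by
        calc q ^ 2 < b ^ 3 := hq2
          _ ≤ b ^ 4 := Nat.pow_le_pow_right (by omega) (by omega)
          _ = _ := by ring
      exact lt_of_pow_lt_pow_left₀ 2 (by positivity) h5
    · unfold Pq; rw [mem_filter]; exact ⟨hzb', hqd⟩
  have hcard : (S.card : ℝ) ≤ ∑ q ∈ QQ b ζ, ((Pq b B1 B2 a0 c0 q).card : ℝ) := by
    have h1 := (Finset.card_le_card hsub).trans Finset.card_biUnion_le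
    exact_mod_cast h1
  -- split
  set QA := (QQ b ζ).filter (fun q => q ∣ b) with hQA
  set Q0 := (QQ b ζ).filter (fun q => ¬ q ∣ b) with hQ0
  set QB := Q0.filter (fun q => q ^ 2 ≤ 2 * B1 * B2) with hQB
  set QC := Q0.filter (fun q => ¬ q ^ 2 ≤ 2 * B1 * B2) with hQC
  have hsplit : ∑ q ∈ QQ b ζ, ((Pq b B1 B2 a0 c0 q).card : ℝ) =
      ∑ q ∈ QA, ((Pq b B1 B2 a0 c0 q).card : ℝ) + (∑ q ∈ QB, ((Pq b B1 B2 a0 c0 q).card : ℝ) +
        ∑ q ∈ QC, ((Pq b B1 B2 a0 c0 q).card : ℝ)) := by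
    rw [hQB, hQC, Finset.sum_filter_add_sum_filter_not, hQA, hQ0,
      Finset.sum_filter_add_sum_filter_not]
  have hmemQ : ∀ q ∈ QQ b ζ, q.Prime ∧ x ^ ζ ≤ q ∧ q ^ 2 < b ^ 3 := by
    intro q hq; unfold QQ at hq; rw [mem_filter] at hq; exact hq.2
  have hζp : 0 < x ^ ζ := Real.rpow_pos_of_pos hx0 _
  -- case A
  have hA : ∑ q ∈ QA, ((Pq b B1 B2 a0 c0 q).card : ℝ) ≤ 2 / ζ * x ^ (-δ) * X := by
    have h1 : ∀ q ∈ QA, ((Pq b B1 B2 a0 c0 q).card : ℝ) ≤ (B1 / x ^ ζ + 1) * B2 := by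
      intro q hq
      rw [hQA, mem_filter] at hq
      obtain ⟨q1, q2, _⟩ := hmemQ q hq.1
      have h2 : ((Pq b B1 B2 a0 c0 q).card : ℝ) ≤ (((B1 / q + 1) * B2 : ℕ) : ℝ) := by
        exact_mod_cast card_A q1 hq.2
      refine h2.trans ?_
      push_cast
      refine mul_le_mul_of_nonneg_right ?_ (by positivity)
      have h3 := Nat.cast_div_le (α := ℝ) (m := B1) (n := q)
      have h4 : (B1 : ℝ) / q ≤ B1 / x ^ ζ := div_le_div_of_nonneg_left (by positivity) hζp q2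
      linarith
    have h2 : (QA.card : ℝ) ≤ 1 / ζ := by
      refine card_dvd hb hζ QA fun q hq => ?_
      rw [hQA, mem_filter] at hq
      obtain ⟨q1, q2, _⟩ := hmemQ q hq.1
      exact ⟨q1, hq.2, q2⟩
    have h3 := Finset.sum_le_sum h1
    rw [Finset.sum_const, nsmul_eq_mul] at h3
    refine h3.trans ?_
    have h4 : (B1 / x ^ ζ + 1) * (B2 : ℝ) ≤ 2 * x ^ (-δ) * X := by
      have e1 : (B1 : ℝ) / x ^ ζ * B2 = x ^ (-ζ) * X := by
        rw [Real.rpow_neg hx0.le, hXdef]; field_simp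
      have e2 : x ^ (-ζ) ≤ x ^ (-δ) := mono _ _ (by linarith)
      have e3 : (B2 : ℝ) ≤ x ^ (-δ) * X := by
        calc (B2 : ℝ) ≤ x ^ (1 : ℝ) := by rw [Real.rpow_one]; exact hB2x
          _ ≤ x ^ (-δ + 8 / 5) := mono _ _ (by linarith)
          _ = x ^ (-δ) * x ^ (8 / 5 : ℝ) := Real.rpow_add hx0 _ _
          _ ≤ x ^ (-δ) * X := mul_le_mul_of_nonneg_left hX (by positivity)
      have e4 : x ^ (-ζ) * X ≤ x ^ (-δ) * X := mul_le_mul_of_nonneg_right e2 hX0.le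
      rw [add_mul, e1, one_mul]; linarith
    calc (QA.card : ℝ) * ((B1 / x ^ ζ + 1) * B2) ≤ (1 / ζ) * (2 * x ^ (-δ) * X) :=
          mul_le_mul h2 h4 (by positivity) (by positivity)
      _ = _ := by ring
  -- case B
  have hB : ∑ q ∈ QB, ((Pq b B1 B2 a0 c0 q).card : ℝ) ≤ 4 * x ^ (-δ) * X := by
    have h1 : ∀ q ∈ QB, ((Pq b B1 B2 a0 c0 q).card : ℝ) ≤ X * (1 / (q : ℝ) ^ 2) + B1 := by
      intro q hq
      rw [hQB, mem_filter, hQ0, mem_filter] at hq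
      obtain ⟨q1, q2, _⟩ := hmemQ q hq.1.1
      have h2 : ((Pq b B1 B2 a0 c0 q).card : ℝ) ≤ (((B2 / q ^ 2 + 1) * B1 : ℕ) : ℝ) := by
        exact_mod_cast card_B q1 hq.1.2
      refine h2.trans ?_
      push_cast
      have h3 := Nat.cast_div_le (α := ℝ) (m := B2) (n := q ^ 2)
      push_cast at h3
      have h4 : (((B2 / q ^ 2 : ℕ) : ℝ) + 1) * B1 ≤ ((B2 : ℝ) / (q : ℝ) ^ 2 + 1) * B1 :=
        mul_le_mul_of_nonneg_right (by linarith) (by positivity)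
      refine h4.trans (le_of_eq ?_)
      rw [hXdef]; ring
    have h3 := Finset.sum_le_sum h1
    rw [Finset.sum_add_distrib, ← Finset.mul_sum, Finset.sum_const, nsmul_eq_mul] at h3
    refine h3.trans ?_
    have h4 : ∑ q ∈ QB, (1 : ℝ) / (q : ℝ) ^ 2 ≤ 2 / x ^ ζ := by
      refine sum_sq (by omega) QB (b ^ 2) fun q hq => ?_
      rw [hQB, mem_filter, hQ0, mem_filter] at hq
      refine ⟨(hmemQ q hq.1.1).2.1, ?_⟩
      have := hq.1.1
      unfold QQ at this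
      rw [mem_filter, mem_range] at this
      exact this.1
    have h5 : (QB.card : ℝ) ≤ √(2 * X) := by
      have h6 : QB ⊆ Icc 1 (Nat.sqrt (2 * B1 * B2)) := by
        intro q hq
        rw [hQB, mem_filter, hQ0, mem_filter] at hq
        rw [mem_Icc]
        exact ⟨(hmemQ q hq.1.1).1.one_lt.le, Nat.le_sqrt'.mpr hq.2⟩
      have h7 := Finset.card_le_card h6
      rw [Nat.card_Icc, Nat.add_sub_cancel] at h7
      have h8 : (QB.card : ℝ) ≤ (Nat.sqrt (2 * B1 * B2) : ℝ) := by exact_mod_cast h7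
      refine h8.trans ?_
      have h9 := Real.nat_sqrt_le_real_sqrt (a := 2 * B1 * B2)
      refine h9.trans (le_of_eq ?_)
      congr 1
      rw [hXdef]; push_cast; ring
    have h6 : X * (2 / x ^ ζ) ≤ 2 * x ^ (-δ) * X := by
      have e2 : x ^ (-ζ) ≤ x ^ (-δ) := mono _ _ (by linarith)
      have e3 : X * (2 / x ^ ζ) = 2 * x ^ (-ζ) * X := by rw [Real.rpow_neg hx0.le]; ring
      rw [e3]
      exact mul_le_mul_of_nonneg_right (by linarith) hX0.le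
    have h7 : √(2 * X) * B1 ≤ 2 * x ^ (-δ) * X := by
      have e1 : (B1 : ℝ) ^ 2 ≤ X * x ^ (-η) := by
        rw [hXdef, pow_two, mul_assoc]
        exact mul_le_mul_of_nonneg_left h12 (by positivity)
      have e2 : x ^ (-η) ≤ (x ^ (-δ)) ^ 2 := by
        rw [← Real.rpow_natCast (x ^ (-δ)), ← Real.rpow_mul hx0.le]
        exact mono _ _ (by push_cast; linarith)
      have e3 : (√(2 * X) * B1) ^ 2 ≤ (2 * x ^ (-δ) * X) ^ 2 := by
        rw [mul_pow, Real.sq_sqrt (by positivity)]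
        calc 2 * X * (B1 : ℝ) ^ 2 ≤ 2 * X * (X * (x ^ (-δ)) ^ 2) := by
              refine mul_le_mul_of_nonneg_left (e1.trans ?_) (by positivity)
              exact mul_le_mul_of_nonneg_left e2 hX0.le
          _ ≤ 4 * X * (X * (x ^ (-δ)) ^ 2) := by
              have : 0 ≤ X * (X * (x ^ (-δ)) ^ 2) := by positivity
              nlinarith
          _ = _ := by ring
      exact (pow_le_pow_iff_left₀ (by positivity) (by positivity) two_ne_zero).mp e3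
    calc X * ∑ q ∈ QB, (1 : ℝ) / (q : ℝ) ^ 2 + QB.card * B1 ≤ X * (2 / x ^ ζ) + √(2 * X) * B1 :=
          add_le_add (mul_le_mul_of_nonneg_left h4 hX0.le)
            (mul_le_mul_of_nonneg_right h5 (by positivity))
      _ ≤ _ := by linarith
  -- case C
  have hC : ∑ q ∈ QC, ((Pq b B1 B2 a0 c0 q).card : ℝ) ≤ 28 * x ^ (-δ) * X := by
    have hbig : b ^ 3 ≤ (2 * B1 * B2) ^ 2 := by
      have h1 : x ^ (3 : ℝ) ≤ (2 * X) ^ 2 := by
        calc x ^ (3 : ℝ) ≤ x ^ ((8 / 5 : ℝ) * 2) := mono _ _ (by norm_num)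
          _ = (x ^ (8 / 5 : ℝ)) ^ (2 : ℝ) := Real.rpow_mul hx0.le _ _
          _ = (x ^ (8 / 5 : ℝ)) ^ 2 := by norm_num
          _ ≤ X ^ 2 := pow_le_pow_left₀ (by positivity) hX 2
          _ ≤ (2 * X) ^ 2 := pow_le_pow_left₀ hX0.le (by linarith) 2
      have h2 : x ^ (3 : ℝ) = x ^ 3 := by norm_num
      rw [h2] at h1
      have h3 : ((b ^ 3 : ℕ) : ℝ) ≤ (((2 * B1 * B2) ^ 2 : ℕ) : ℝ) := by
        push_cast
        refine h1.trans (le_of_eq ?_)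
        rw [hXdef]; ring
      exact_mod_cast h3
    have hK1 : (1 : ℝ) ≤ x ^ (3 * η) := Real.one_le_rpow hx1 (by linarith)
    have h1 := sum_C (a0 := a0) (c0 := c0) hB12 hB2 hbig (x ^ (3 * η)) hK1 QC (by
      intro q hq
      rw [hQC, mem_filter, hQ0, mem_filter] at hq
      exact ⟨(hmemQ q hq.1.1).1, hq.1.2, not_le.mp hq.2⟩)
    refine h1.trans ?_
    have h2 : (QC.card : ℝ) ≤ 2 * x ^ (3 / 2 : ℝ) := by
      refine le_trans ?_ (card_QQ (by omega) ζ)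
      have : QC ⊆ QQ b ζ := (Finset.filter_subset _ _).trans (Finset.filter_subset _ _)
      exact_mod_cast Finset.card_le_card this
    have h3 : (QC.card : ℝ) * (1 + x ^ (3 * η)) ≤ 4 * x ^ (-δ) * X := by
      calc (QC.card : ℝ) * (1 + x ^ (3 * η)) ≤ (2 * x ^ (3 / 2 : ℝ)) * (2 * x ^ (3 * η)) :=
            mul_le_mul h2 (by linarith) (by positivity) (by positivity)
        _ = 4 * x ^ (3 / 2 + 3 * η) := by rw [Real.rpow_add hx0]; ring
        _ ≤ 4 * x ^ (-δ + 8 / 5) := by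
            refine mul_le_mul_of_nonneg_left (mono _ _ (by linarith)) (by norm_num)
        _ = 4 * x ^ (-δ) * x ^ (8 / 5 : ℝ) := by rw [Real.rpow_add hx0]; ring
        _ ≤ 4 * x ^ (-δ) * X := mul_le_mul_of_nonneg_left hX (by positivity)
    have h4 : 24 * (B2 : ℝ) * (B2 / x ^ (3 * η)) ≤ 24 * x ^ (-δ) * X := by
      have e1 : (B2 : ℝ) * B2 ≤ X * x ^ (2 * η) := by
        have e2 : (B2 : ℝ) ≤ B1 * x ^ (2 * η) := by
          have e3 := mul_le_mul_of_nonneg_right h21 (by positivity : (0 : ℝ) ≤ x ^ (2 * η))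
          rw [mul_assoc, ← Real.rpow_add hx0] at e3
          rw [show -(2 * η) + 2 * η = 0 by ring, Real.rpow_zero, mul_one] at e3
          exact e3
        calc (B2 : ℝ) * B2 ≤ (B1 * x ^ (2 * η)) * B2 := mul_le_mul_of_nonneg_right e2 (by positivity)
          _ = _ := by rw [hXdef]; ring
      calc 24 * (B2 : ℝ) * (B2 / x ^ (3 * η)) = 24 * (B2 * B2) * x ^ (-(3 * η)) := by
            rw [Real.rpow_neg hx0.le]; ring
        _ ≤ 24 * (X * x ^ (2 * η)) * x ^ (-(3 * η)) :=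
            mul_le_mul_of_nonneg_right (by linarith) (by positivity)
        _ = 24 * x ^ (2 * η + -(3 * η)) * X := by rw [Real.rpow_add hx0]; ring
        _ ≤ 24 * x ^ (-δ) * X := by
            refine mul_le_mul_of_nonneg_right ?_ hX0.le
            exact mul_le_mul_of_nonneg_left (mono _ _ (by linarith)) (by norm_num)
    linarith
  rw [hsplit] at hcard
  have hfin : (2 / ζ + 32) * x ^ (-δ) * X = 2 / ζ * x ^ (-δ) * X + (4 * x ^ (-δ) * X +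
      28 * x ^ (-δ) * X) := by ring
  rw [hfin]
  linarith

theorem sq : Pool.Agent.Zk41.TD.S_SQ := by
  classical
  intro ζ η hζ hη hη2
  set δ : ℝ := min ζ (min (η / 2) (1 / 25)) with hδ
  have hδ0 : 0 < δ := by
    rw [hδ]; exact lt_min hζ (lt_min (by linarith) (by norm_num))
  refine ⟨δ / 2, by linarith, ?_⟩
  have hlim : Tendsto (fun b : ℕ => ((b : ℝ)) ^ (δ / 2)) atTop atTop :=
    (tendsto_rpow_atTop (by linarith)).comp tendsto_natCast_atTop_atTop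
  obtain ⟨b1, hb1⟩ := Filter.eventually_atTop.mp (hlim.eventually_ge_atTop (2 / ζ + 32))
  refine ⟨max b1 2, ?_⟩
  intro b hb B1 B2 a0 c0 hB2 hX h21 h12 ha hab hcb
  have hb2 : 2 ≤ b := (le_max_right _ _).trans hb
  have hx0 : (0 : ℝ) < b := by
    have : 0 < b := by omega
    exact_mod_cast this
  have h1 := main_bd (a0 := a0) (c0 := c0) hb2 hζ hη hη2 hB2 hX h21 h12 ha hab hcb
    ((Ico a0 (a0 + B1) ×ˢ Ico c0 (c0 + B2)).filter (fun z : ℕ × ℕ => ∃ q : ℕ, q.Prime ∧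
      (b : ℝ) ^ ζ ≤ q ∧ q ^ 2 ∣ Pool.Agent.Zk41.TD.pal b z.1 z.2)) (by
        intro z hz
        rw [mem_filter] at hz
        exact ⟨hz.1, hz.2⟩)
  refine h1.trans ?_
  refine mul_le_mul_of_nonneg_right ?_ (by positivity)
  have h2 : (2 / ζ + 32) ≤ (b : ℝ) ^ (δ / 2) := hb1 b ((le_max_left _ _).trans hb)
  calc (2 / ζ + 32) * (b : ℝ) ^ (-δ) ≤ (b : ℝ) ^ (δ / 2) * (b : ℝ) ^ (-δ) :=
        mul_le_mul_of_nonneg_right h2 (by positivity)
    _ = (b : ℝ) ^ (-(δ / 2)) := by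
        rw [← Real.rpow_add hx0]; congr 1; ring

end Pool.Agent.Zk78.TD
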