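import Pool.Agent.Zk78.TD.SR1
import Pool.Agent.Zk78.TD.SQ

/-! Few three-digit palindromes in a flat box are divisible by the square of a large prime. -/

set_option autoImplicit false

open Finset Filter

namespace Pool.Agent.Zk78.TD

/-- case A, other side -/
lemma card_A2 {b B1 B2 a0 c0 q : ℕ} (hq : q.Prime) (hqb : ¬ q ∣ b) (hqb1 : q ∣ b ^ 2 + 1) :
    (Pq b B1 B2 a0 c0 q).card ≤ (B2 / q + 1) * B1 := by
  classical
  have h1 := Finset.card_le_mul_card_image (f := Prod.fst) (Pq b B1 B2 a0 c0 q) (B2 / q + 1) ?_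
  · have h2 : ((Pq b B1 B2 a0 c0 q).image Prod.fst).card ≤ B1 := by
      calc _ ≤ (Ico a0 (a0 + B1)).card := by
            refine Finset.card_le_card ?_
            intro c hc
            obtain ⟨z, hz, rfl⟩ := Finset.mem_image.mp hc
            rw [mem_Pq] at hz
            rw [mem_Ico]; exact hz.1
        _ = B1 := by simp
    exact h1.trans (Nat.mul_le_mul_left _ h2)
  · intro c _
    refine sep_card _ (fun z => z.2) c0 B2 q hq.pos ?_ ?_
    · intro z hz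
      simp only [mem_filter, mem_Pq] at hz
      exact hz.1.2.1
    · intro z hz z' hz' hne
      simp only [mem_filter, mem_Pq] at hz hz'
      have hd : ∀ z : ℕ × ℕ, q ^ 2 ∣ pl b z.1 z.2 → (q : ℤ) ∣ (z.2 : ℤ) := by
        intro z hz
        have h3 : q ∣ pl b z.1 z.2 := (dvd_pow_self q two_ne_zero).trans hz
        have h4 : q ∣ z.2 * b := by
          unfold pl at h3
          exact (Nat.dvd_add_right (dvd_mul_of_dvd_right hqb1 _)).mp h3
        have h5 : q ∣ z.2 := by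
          rcases (Nat.Prime.dvd_mul hq).mp h4 with h | h
          · exact h
          · exact absurd h hqb
        exact_mod_cast h5
      have h6 : (q : ℤ) ∣ |(z.2 : ℤ) - z'.2| := (dvd_abs _ _).mpr (dvd_sub (hd z hz.1.2.2) (hd z' hz'.1.2.2))
      have h7 : (z.2 : ℤ) - z'.2 ≠ 0 := by
        intro h0
        apply hne
        have : z.2 = z'.2 := by omega
        exact Prod.ext (hz.2.trans hz'.2.symm) this
      exact Int.le_of_dvd (abs_pos.mpr h7) h6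

/-- case B, other side -/
lemma card_B2 {b B1 B2 a0 c0 q : ℕ} (hq : q.Prime) (hqb : ¬ q ∣ b ^ 2 + 1) :
    (Pq b B1 B2 a0 c0 q).card ≤ (B1 / q ^ 2 + 1) * B2 := by
  classical
  have h1 := Finset.card_le_mul_card_image (f := Prod.snd) (Pq b B1 B2 a0 c0 q) (B1 / q ^ 2 + 1) ?_
  · have h2 : ((Pq b B1 B2 a0 c0 q).image Prod.snd).card ≤ B2 := by
      calc _ ≤ (Ico c0 (c0 + B2)).card := by
            refine Finset.card_le_card ?_
            intro c hc
            obtain ⟨z, hz, rfl⟩ := Finset.mem_image.mp hc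
            rw [mem_Pq] at hz
            rw [mem_Ico]; exact hz.2.1
        _ = B2 := by simp
    exact h1.trans (Nat.mul_le_mul_left _ h2)
  · intro c _
    refine sep_card _ (fun z => z.1) a0 B1 (q ^ 2) (pow_pos hq.pos 2) ?_ ?_
    · intro z hz
      simp only [mem_filter, mem_Pq] at hz
      exact hz.1.1
    · intro z hz z' hz' hne
      simp only [mem_filter, mem_Pq] at hz hz'
      have h3 := dvd_lf hz.1.2.2 hz'.1.2.2
      have h4 : z.2 = z'.2 := hz.2.trans hz'.2.symm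
      have h5 : lf b ((z.1 : ℤ) - z'.1) ((z.2 : ℤ) - z'.2) = ((z.1 : ℤ) - z'.1) * ((b ^ 2 + 1 : ℕ) : ℤ) := by
        unfold lf; rw [h4]; push_cast; ring
      rw [h5] at h3
      have h6 : ((q : ℤ) ^ 2) ∣ (z.1 : ℤ) - z'.1 := (cop_sq hq hqb).dvd_of_dvd_mul_right h3
      have h7 : (z.1 : ℤ) - z'.1 ≠ 0 := by
        intro h0
        apply hne
        exact Prod.ext (by omega) h4
      have h8 := Int.le_of_dvd (abs_pos.mpr h7) ((dvd_abs _ _).mpr h6)
      push_cast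
      exact h8

lemma card_dvd2 {b m : ℕ} (hb : 2 ≤ b) (hm : m ≠ 0) (hmb : m ≤ b ^ 3) {ζ : ℝ} (hζ : 0 < ζ)
    (Q : Finset ℕ) (hQ : ∀ q ∈ Q, q.Prime ∧ q ∣ m ∧ (b : ℝ) ^ ζ ≤ q) : (Q.card : ℝ) ≤ 3 / ζ := by
  classical
  have hx : (1 : ℝ) < b := by
    have : 1 < b := by omega
    exact_mod_cast this
  have h1 : Q ⊆ m.primeFactors := by
    intro q hq
    rw [Nat.mem_primeFactors]
    exact ⟨(hQ q hq).1, (hQ q hq).2.1, hm⟩
  have h2 : ∏ q ∈ Q, q ≤ b ^ 3 := by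
    refine (Nat.le_of_dvd (by omega) ?_).trans hmb
    exact (Finset.prod_dvd_prod_of_subset _ _ _ h1).trans (Nat.prod_primeFactors_dvd m)
  have h3 : ((b : ℝ) ^ ζ) ^ Q.card ≤ ∏ q ∈ Q, (q : ℝ) := by
    rw [← Finset.prod_const]
    exact Finset.prod_le_prod (fun _ _ => by positivity) fun q hq => (hQ q hq).2.2
  have h4 : ∏ q ∈ Q, (q : ℝ) ≤ (b : ℝ) ^ 3 := by
    have h5 : ((∏ q ∈ Q, q : ℕ) : ℝ) ≤ ((b ^ 3 : ℕ) : ℝ) := Nat.cast_le.mpr h2
    rw [Nat.cast_prod] at h5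
    push_cast at h5
    exact h5
  have h5 : (b : ℝ) ^ (ζ * Q.card) ≤ (b : ℝ) ^ (3 : ℝ) := by
    rw [Real.rpow_mul (by positivity), Real.rpow_natCast]
    have : (b : ℝ) ^ (3 : ℝ) = (b : ℝ) ^ 3 := by norm_num
    rw [this]
    exact h3.trans h4
  have h6 : ζ * Q.card ≤ 3 := (Real.rpow_le_rpow_left_iff hx).mp h5
  rw [le_div_iff₀ hζ]; linarith

/-- the sum over the primes with many points -/
lemma sum_C2 {b B1 B2 a0 c0 : ℕ} (h1 : 0 < B1) (h2 : 0 < B2) (hb1 : B1 ≤ b) (hb2 : B2 ≤ b)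
    (hB : b ^ 3 ≤ (2 * B1 * B2) ^ 2) (K : ℝ) (hK : 1 ≤ K) (Q : Finset ℕ)
    (hQ : ∀ q ∈ Q, q.Prime ∧ ¬ q ∣ b ∧ 2 * B1 * B2 < q ^ 2) :
    ∑ q ∈ Q, ((Pq b B1 B2 a0 c0 q).card : ℝ) ≤ Q.card * (1 + K) +
      8 * ((B1 : ℝ) * B2) * (2 / K + 2 * √(b : ℝ) / B2 + 2 * √(b : ℝ) / B1) := by
  classical
  have hB1 : (0 : ℝ) < B1 := by exact_mod_cast h1
  have hB2 : (0 : ℝ) < B2 := by exact_mod_cast h2
  have hK0 : 0 < K := by linarith
  have h3 : ∑ q ∈ Q, ((Pq b B1 B2 a0 c0 q).card : ℝ) ≤ ∑ _q ∈ Q, (1 + K) +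
      ∑ q ∈ Q.filter (fun q => 1 + K < (Pq b B1 B2 a0 c0 q).card),
        ((Pq b B1 B2 a0 c0 q).card : ℝ) := by
    rw [Finset.sum_filter, ← Finset.sum_add_distrib]
    refine Finset.sum_le_sum fun q _ => ?_
    split_ifs with h
    · linarith
    · push Not at h; linarith
  refine h3.trans ?_
  rw [Finset.sum_const, nsmul_eq_mul]
  refine add_le_add le_rfl ?_
  set Q2 := Q.filter (fun q => 1 + K < (Pq b B1 B2 a0 c0 q).card) with hQ2
  set X : ℝ := (B1 : ℝ) * B2 with hX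
  have h4 : ∀ q ∈ Q2, ∃ v : ℤ × ℤ, 0 < nm v ∧ v.1.natAbs < B1 ∧ v.2.natAbs < B2 ∧
      ((q : ℤ) ^ 2) ∣ lf b v.1 v.2 ∧
      ((Pq b B1 B2 a0 c0 q).card : ℝ) ≤ X / nm2 B1 B2 v.1.natAbs v.2.natAbs + 1 := by
    intro q hq
    rw [hQ2, mem_filter] at hq
    obtain ⟨q1, q2, q3⟩ := hQ q hq.1
    refine card_C2 h1 h2 q1 q2 q3 ?_
    have : (1 : ℝ) < (Pq b B1 B2 a0 c0 q).card := by linarith [hq.2]
    have : 1 < (Pq b B1 B2 a0 c0 q).card := by exact_mod_cast this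
    omega
  choose! v hv using h4
  set n1 := ⌊(B1 : ℝ) / K⌋₊ with hn1
  set n2 := ⌊(B2 : ℝ) / K⌋₊ with hn2
  set D := ((range (n1 + 1)) ×ˢ (range (n2 + 1))).filter (fun p => 0 < nm2 B1 B2 p.1 p.2) with hD
  set π : ℕ → ℕ × ℕ := fun q => ((v q).1.natAbs, (v q).2.natAbs) with hπ
  have hle : ∀ q ∈ Q2, ((Pq b B1 B2 a0 c0 q).card : ℝ) ≤ 2 * X * (1 / nm2 B1 B2 (π q).1 (π q).2) ∧
      π q ∈ D := by
    intro q hq
    obtain ⟨v1, v2, v3, v4, v5⟩ := hv q hq
    rw [hQ2, mem_filter] at hq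
    have e0 : 0 < nm2 B1 B2 (π q).1 (π q).2 := by
      unfold nm at v1
      rw [lt_max_iff] at v1
      unfold nm2
      rw [lt_max_iff]
      rcases v1 with h | h
      · left; exact Nat.mul_pos h h2
      · right; exact Nat.mul_pos h h1
    have e0' : (0 : ℝ) < nm2 B1 B2 (π q).1 (π q).2 := by exact_mod_cast e0
    have e1 : ((Pq b B1 B2 a0 c0 q).card : ℝ) ≤ X / nm2 B1 B2 (π q).1 (π q).2 + 1 := v5
    have e2 : nm2 B1 B2 (π q).1 (π q).2 ≤ B1 * B2 := by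
      unfold nm2; rw [max_le_iff]
      constructor
      · exact Nat.mul_le_mul_right _ v2.le
      · rw [mul_comm B1 B2]; exact Nat.mul_le_mul_right _ v3.le
    have e3 : (nm2 B1 B2 (π q).1 (π q).2 : ℝ) ≤ X := by rw [hX]; exact_mod_cast e2
    have e4 : (1 : ℝ) ≤ X / nm2 B1 B2 (π q).1 (π q).2 := by rw [le_div_iff₀ e0']; linarith
    have e5 : K < X / nm2 B1 B2 (π q).1 (π q).2 := by linarith [hq.2]
    rw [lt_div_iff₀ e0'] at e5
    refine ⟨?_, ?_⟩
    · rw [mul_one_div, mul_div_assoc]; linarith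
    · rw [hD, mem_filter, mem_product, mem_range, mem_range, Nat.lt_add_one_iff, Nat.lt_add_one_iff]
      refine ⟨⟨Nat.le_floor ?_, Nat.le_floor ?_⟩, e0⟩
      · rw [le_div_iff₀ hK0]
        have f1 : (π q).1 * B2 ≤ nm2 B1 B2 (π q).1 (π q).2 := le_max_left _ _
        have f2 : (((π q).1 : ℝ)) * B2 ≤ nm2 B1 B2 (π q).1 (π q).2 := by exact_mod_cast f1
        have f3 : K * (((π q).1 : ℝ) * B2) < B1 * B2 := by
          calc K * (((π q).1 : ℝ) * B2) ≤ K * nm2 B1 B2 (π q).1 (π q).2 :=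
                mul_le_mul_of_nonneg_left f2 hK0.le
            _ < _ := e5
        have f4 : (K * ((π q).1 : ℝ)) * B2 < B1 * B2 := by rw [mul_assoc]; exact f3
        have f5 := lt_of_mul_lt_mul_right f4 hB2.le
        linarith
      · rw [le_div_iff₀ hK0]
        have f1 : (π q).2 * B1 ≤ nm2 B1 B2 (π q).1 (π q).2 := le_max_right _ _
        have f2 : (((π q).2 : ℝ)) * B1 ≤ nm2 B1 B2 (π q).1 (π q).2 := by exact_mod_cast f1
        have f3 : K * (((π q).2 : ℝ) * B1) < B1 * B2 := by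
          calc K * (((π q).2 : ℝ) * B1) ≤ K * nm2 B1 B2 (π q).1 (π q).2 :=
                mul_le_mul_of_nonneg_left f2 hK0.le
            _ < _ := e5
        have f4 : (K * ((π q).2 : ℝ)) * B1 < B2 * B1 := by rw [mul_assoc, mul_comm (B2 : ℝ)]; exact f3
        have f5 := lt_of_mul_lt_mul_right f4 hB1.le
        linarith
  have hinj : Set.InjOn v Q2 := by
    intro q hq q' hq' hqq
    obtain ⟨v1, v2, v3, v4, _⟩ := hv q hq
    obtain ⟨_, _, _, v4', _⟩ := hv q' hq'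
    rw [← hqq] at v4'
    have m1 := (mem_filter.mp hq).1
    have m2 := (mem_filter.mp hq').1
    exact inj_C hb1 hb2 hB (hQ q m1).1 (hQ q' m2).1 (hQ q m1).2.2 (hQ q' m2).2.2
      v1 v2 v3 v4 v4'
  have hfib : ∀ p ∈ D, (Q2.filter (fun q => π q = p)).card ≤ 4 := by
    intro p _
    calc (Q2.filter (fun q => π q = p)).card ≤
          ((({(p.1 : ℤ), -(p.1 : ℤ)} : Finset ℤ) ×ˢ ({(p.2 : ℤ), -(p.2 : ℤ)} : Finset ℤ))).card := by
          refine Finset.card_le_card_of_injOn v ?_ (hinj.mono ?_)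
          · intro q hq
            have hq2 := (mem_filter.mp hq).2
            simp only [hπ] at hq2
            have g1 : (v q).1.natAbs = p.1 := congrArg Prod.fst hq2
            have g2 : (v q).2.natAbs = p.2 := congrArg Prod.snd hq2
            simp only [coe_product, Set.mem_prod, coe_insert, coe_singleton, Set.mem_insert_iff,
              Set.mem_singleton_iff]
            constructor <;> omega
          · intro q hq
            exact (mem_filter.mp hq).1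
      _ ≤ 2 * 2 := by
          rw [Finset.card_product]
          exact Nat.mul_le_mul Finset.card_le_two Finset.card_le_two
      _ = 4 := by norm_num
  have hX0 : 0 ≤ X := by positivity
  calc ∑ q ∈ Q2, ((Pq b B1 B2 a0 c0 q).card : ℝ) ≤
        ∑ q ∈ Q2, 2 * X * (1 / nm2 B1 B2 (π q).1 (π q).2) :=
        Finset.sum_le_sum fun q hq => (hle q hq).1
    _ = ∑ p ∈ D, ∑ q ∈ Q2.filter (fun q => π q = p), 2 * X * (1 / nm2 B1 B2 (π q).1 (π q).2) :=
        (Finset.sum_fiberwise_of_maps_to (fun q hq => (hle q hq).2) _).symm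
    _ ≤ ∑ p ∈ D, 4 * (2 * X * (1 / (nm2 B1 B2 p.1 p.2 : ℝ))) := by
        refine Finset.sum_le_sum fun p hp => ?_
        have g1 : ∑ q ∈ Q2.filter (fun q => π q = p), 2 * X * (1 / (nm2 B1 B2 (π q).1 (π q).2 : ℝ)) =
            ∑ q ∈ Q2.filter (fun q => π q = p), 2 * X * (1 / (nm2 B1 B2 p.1 p.2 : ℝ)) := by
          refine Finset.sum_congr rfl fun q hq => ?_
          rw [(mem_filter.mp hq).2]
        rw [g1, Finset.sum_const, nsmul_eq_mul]
        refine mul_le_mul_of_nonneg_right ?_ (by positivity)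
        exact_mod_cast hfib p hp
    _ = 8 * X * ∑ p ∈ D, 1 / (nm2 B1 B2 p.1 p.2 : ℝ) := by
        rw [Finset.mul_sum]
        refine Finset.sum_congr rfl fun p _ => by ring
    _ ≤ 8 * X * (2 / K + 2 * √(b : ℝ) / B2 + 2 * √(b : ℝ) / B1) := by
        refine mul_le_mul_of_nonneg_left ?_ (by positivity)
        refine (sum_F h1 h2).trans ?_
        have k1 : (n1 : ℝ) ≤ B1 / K := Nat.floor_le (by positivity)
        have k2 : (n2 : ℝ) ≤ B2 / K := Nat.floor_le (by positivity)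
        have k3 : (n1 : ℝ) / B1 ≤ 1 / K := by
          rw [div_le_iff₀ hB1]; refine k1.trans (le_of_eq ?_); ring
        have k4 : (n2 : ℝ) / B2 ≤ 1 / K := by
          rw [div_le_iff₀ hB2]; refine k2.trans (le_of_eq ?_); ring
        have k5 : (n1 : ℝ) ≤ b := by
          refine k1.trans ((div_le_self hB1.le hK).trans ?_)
          exact_mod_cast hb1
        have k6 : (n2 : ℝ) ≤ b := by
          refine k2.trans ((div_le_self hB2.le hK).trans ?_)
          exact_mod_cast hb2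
        have k7 : 2 * √(n1 : ℝ) / B2 ≤ 2 * √(b : ℝ) / B2 :=
          div_le_div_of_nonneg_right (by linarith [Real.sqrt_le_sqrt k5]) hB2.le
        have k8 : 2 * √(n2 : ℝ) / B1 ≤ 2 * √(b : ℝ) / B1 :=
          div_le_div_of_nonneg_right (by linarith [Real.sqrt_le_sqrt k6]) hB1.le
        have k9 : 2 / K = 1 / K + 1 / K := by ring
        linarith

/-- the bound with explicit constants -/
lemma main_bd2 {b B1 B2 a0 c0 : ℕ} {ζ η : ℝ} (hb : 2 ≤ b) (hζ : 0 < ζ) (hη : 0 < η)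
    (hB1 : B1 ≤ b) (hB2 : B2 ≤ b) (hX : (b : ℝ) ^ (8 / 5 : ℝ) ≤ B1 * B2)
    (h12 : (B1 : ℝ) ≤ B2 * (b : ℝ) ^ (-η) ∨ (B2 : ℝ) ≤ B1 * (b : ℝ) ^ (-η))
    (ha : 1 ≤ a0) (hab : a0 + B1 ≤ b) (hcb : c0 + B2 ≤ b) (S : Finset (ℕ × ℕ))
    (hS : ∀ z ∈ S, z ∈ bx B1 B2 a0 c0 ∧ ∃ q : ℕ, q.Prime ∧ (b : ℝ) ^ ζ ≤ q ∧
      q ^ 2 ∣ pl b z.1 z.2) :
    (S.card : ℝ) ≤ (8 / ζ + 56) * (b : ℝ) ^ (-(min ζ (min (η / 2) (1 / 20)))) * (B1 * B2) := by
  classical
  set x : ℝ := (b : ℝ) with hxdef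
  have hx1 : (1 : ℝ) ≤ x := by
    have : 1 ≤ b := by omega
    rw [hxdef]
    exact_mod_cast this
  have hx0 : (0 : ℝ) < x := by linarith
  set X : ℝ := (B1 : ℝ) * B2 with hXdef
  set δ : ℝ := min ζ (min (η / 2) (1 / 20)) with hδ
  have hδζ : δ ≤ ζ := min_le_left _ _
  have hδη : δ ≤ η / 2 := (min_le_right _ _).trans (min_le_left _ _)
  have hδ3 : δ ≤ 1 / 20 := (min_le_right _ _).trans (min_le_right _ _)
  have hX0 : 0 < X := lt_of_lt_of_le (Real.rpow_pos_of_pos hx0 _) hX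
  have mono : ∀ s t : ℝ, s ≤ t → x ^ s ≤ x ^ t := fun s t h => Real.rpow_le_rpow_of_exponent_le hx1 h
  have hB1x : (B1 : ℝ) ≤ x := by rw [hxdef]; exact_mod_cast hB1
  have hB2x : (B2 : ℝ) ≤ x := by rw [hxdef]; exact_mod_cast hB2
  have hB1p : 0 < B1 := by
    rcases Nat.eq_zero_or_pos B1 with h | h
    · rw [hXdef, h] at hX0; simp at hX0
    · exact h
  have hB2p : 0 < B2 := by
    rcases Nat.eq_zero_or_pos B2 with h | h
    · rw [hXdef, h] at hX0; simp at hX0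
    · exact h
  have hB1p' : (0 : ℝ) < B1 := by exact_mod_cast hB1p
  have hB2p' : (0 : ℝ) < B2 := by exact_mod_cast hB2p
  -- lower bounds of the sides
  have low : ∀ u v : ℝ, 0 < u → u ≤ x → u * v = X → x ^ (3 / 5 : ℝ) ≤ v := by
    intro u v hu hux huv
    have e1 : x ^ (3 / 5 : ℝ) * x ≤ v * x := by
      calc x ^ (3 / 5 : ℝ) * x = x ^ (3 / 5 : ℝ) * x ^ (1 : ℝ) := by rw [Real.rpow_one]
        _ = x ^ (8 / 5 : ℝ) := by rw [← Real.rpow_add hx0]; norm_num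
        _ ≤ X := hX
        _ = u * v := huv.symm
        _ ≤ x * v := by
            refine mul_le_mul_of_nonneg_right hux ?_
            by_contra hv
            push Not at hv
            have : u * v < 0 := mul_neg_of_pos_of_neg hu hv
            linarith
        _ = v * x := by ring
    exact le_of_mul_le_mul_right e1 hx0
  have hl2 : x ^ (3 / 5 : ℝ) ≤ B2 := low B1 B2 hB1p' hB1x rfl
  have hl1 : x ^ (3 / 5 : ℝ) ≤ B1 := low B2 B1 hB2p' hB2x (by rw [hXdef]; ring)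
  -- union bound
  have hsub : S ⊆ (QQ b ζ).biUnion (fun q => Pq b B1 B2 a0 c0 q) := by
    intro z hz
    obtain ⟨hzb, q, hq, hqζ, hqd⟩ := hS z hz
    rw [Finset.mem_biUnion]
    have hzb' := hzb
    unfold bx at hzb
    simp only [mem_product, mem_Ico] at hzb
    have hlt : pl b z.1 z.2 < b ^ 3 := pl_lt (by omega) (by omega)
    have hpos : 0 < pl b z.1 z.2 := by
      unfold pl
      have : 0 < z.1 := by omega
      positivity
    have hq2 : q ^ 2 < b ^ 3 := (Nat.le_of_dvd hpos hqd).trans_lt hlt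
    refine ⟨q, ?_, ?_⟩
    · unfold QQ
      rw [mem_filter, mem_range]
      refine ⟨?_, hq, hqζ, hq2⟩
      have h5 : q ^ 2 < (b ^ 2) ^ 2 := by
        calc q ^ 2 < b ^ 3 := hq2
          _ ≤ b ^ 4 := Nat.pow_le_pow_right (by omega) (by omega)
          _ = _ := by ring
      exact lt_of_pow_lt_pow_left₀ 2 (by positivity) h5
    · unfold Pq; rw [mem_filter]; exact ⟨hzb', hqd⟩
  have hcard : (S.card : ℝ) ≤ ∑ q ∈ QQ b ζ, ((Pq b B1 B2 a0 c0 q).card : ℝ) := by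
    have h1 := (Finset.card_le_card hsub).trans Finset.card_biUnion_le
    exact_mod_cast h1
  -- split
  set QA := (QQ b ζ).filter (fun q => q ∣ b) with hQA
  set Q0 := (QQ b ζ).filter (fun q => ¬ q ∣ b) with hQ0
  set QB := Q0.filter (fun q => q ^ 2 ≤ 2 * B1 * B2) with hQB
  set QC := Q0.filter (fun q => ¬ q ^ 2 ≤ 2 * B1 * B2) with hQC
  have hsplit : ∑ q ∈ QQ b ζ, ((Pq b B1 B2 a0 c0 q).card : ℝ) =
      ∑ q ∈ QA, ((Pq b B1 B2 a0 c0 q).card : ℝ) + (∑ q ∈ QB, ((Pq b B1 B2 a0 c0 q).card : ℝ) +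
        ∑ q ∈ QC, ((Pq b B1 B2 a0 c0 q).card : ℝ)) := by
    rw [hQB, hQC, Finset.sum_filter_add_sum_filter_not, hQA, hQ0,
      Finset.sum_filter_add_sum_filter_not]
  have hmemQ : ∀ q ∈ QQ b ζ, q.Prime ∧ x ^ ζ ≤ q ∧ q ^ 2 < b ^ 3 := by
    intro q hq; unfold QQ at hq; rw [mem_filter] at hq; exact hq.2
  have hζp : 0 < x ^ ζ := Real.rpow_pos_of_pos hx0 _
  -- sides are small compared with the area
  have side : ∀ u : ℝ, u ≤ x → u ≤ x ^ (-δ) * X := by
    intro u hu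
    calc u ≤ x ^ (1 : ℝ) := by rw [Real.rpow_one]; exact hu
      _ ≤ x ^ (-δ + 8 / 5) := mono _ _ (by linarith)
      _ = x ^ (-δ) * x ^ (8 / 5 : ℝ) := Real.rpow_add hx0 _ _
      _ ≤ x ^ (-δ) * X := mul_le_mul_of_nonneg_left hX (by positivity)
  have hζδ : x ^ (-ζ) * X ≤ x ^ (-δ) * X :=
    mul_le_mul_of_nonneg_right (mono _ _ (by linarith)) hX0.le
  -- one class of points for each prime of a small set
  have hsmall : ∀ (U W : ℕ) (Q : Finset ℕ), (U : ℝ) * W = X → (W : ℝ) ≤ x →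
      (∀ q ∈ Q, x ^ ζ ≤ q ∧ (Pq b B1 B2 a0 c0 q).card ≤ (U / q + 1) * W) →
      ∑ q ∈ Q, ((Pq b B1 B2 a0 c0 q).card : ℝ) ≤ Q.card * (2 * x ^ (-δ) * X) := by
    intro U W Q hUW hW hQ
    rw [← nsmul_eq_mul]
    refine Finset.sum_le_card_nsmul _ _ _ fun q hq => ?_
    obtain ⟨q2, q3⟩ := hQ q hq
    have h2 : ((Pq b B1 B2 a0 c0 q).card : ℝ) ≤ (((U / q + 1) * W : ℕ) : ℝ) := by exact_mod_cast q3
    refine h2.trans ?_
    push_cast
    have h3 := Nat.cast_div_le (α := ℝ) (m := U) (n := q)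
    have h4 : (U : ℝ) / q ≤ U / x ^ ζ := div_le_div_of_nonneg_left (by positivity) hζp q2
    have e1 : (U : ℝ) / x ^ ζ * W = x ^ (-ζ) * X := by
      rw [Real.rpow_neg hx0.le, ← hUW]; field_simp
    have h5 : (((U / q : ℕ) : ℝ) + 1) * W ≤ (U / x ^ ζ + 1) * W :=
      mul_le_mul_of_nonneg_right (by linarith) (by positivity)
    refine h5.trans ?_
    rw [add_mul, e1, one_mul]
    have := side W hW
    linarith
  -- residue classes modulo squares
  have hsq : ∀ (U W : ℕ) (Q : Finset ℕ), (U : ℝ) * W = X → (W : ℝ) ≤ U * x ^ (-η) → Q ⊆ QB →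
      (∀ q ∈ Q, (Pq b B1 B2 a0 c0 q).card ≤ (U / q ^ 2 + 1) * W) →
      ∑ q ∈ Q, ((Pq b B1 B2 a0 c0 q).card : ℝ) ≤ 4 * x ^ (-δ) * X := by
    intro U W Q hUW hW hQs hQ
    have h1 : ∀ q ∈ Q, ((Pq b B1 B2 a0 c0 q).card : ℝ) ≤ X * (1 / (q : ℝ) ^ 2) + W := by
      intro q hq
      have h2 : ((Pq b B1 B2 a0 c0 q).card : ℝ) ≤ (((U / q ^ 2 + 1) * W : ℕ) : ℝ) := by
        exact_mod_cast hQ q hq
      refine h2.trans ?_
      push_cast
      have h3 := Nat.cast_div_le (α := ℝ) (m := U) (n := q ^ 2)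
      push_cast at h3
      have h4 : (((U / q ^ 2 : ℕ) : ℝ) + 1) * W ≤ ((U : ℝ) / (q : ℝ) ^ 2 + 1) * W :=
        mul_le_mul_of_nonneg_right (by linarith) (by positivity)
      refine h4.trans (le_of_eq ?_)
      rw [← hUW]; ring
    have h3 := Finset.sum_le_sum h1
    rw [Finset.sum_add_distrib, ← Finset.mul_sum, Finset.sum_const, nsmul_eq_mul] at h3
    refine h3.trans ?_
    have h4 : ∑ q ∈ Q, (1 : ℝ) / (q : ℝ) ^ 2 ≤ 2 / x ^ ζ := by
      refine sum_sq (by omega) Q (b ^ 2) fun q hq => ?_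
      have hq := hQs hq
      rw [hQB, mem_filter, hQ0, mem_filter] at hq
      refine ⟨(hmemQ q hq.1.1).2.1, ?_⟩
      have := hq.1.1
      unfold QQ at this
      rw [mem_filter, mem_range] at this
      exact this.1
    have h5 : (Q.card : ℝ) ≤ √(2 * X) := by
      have h6 : Q ⊆ Icc 1 (Nat.sqrt (2 * B1 * B2)) := by
        intro q hq
        have hq := hQs hq
        rw [hQB, mem_filter, hQ0, mem_filter] at hq
        rw [mem_Icc]
        exact ⟨(hmemQ q hq.1.1).1.one_lt.le, Nat.le_sqrt'.mpr hq.2⟩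
      have h7 := Finset.card_le_card h6
      rw [Nat.card_Icc, Nat.add_sub_cancel] at h7
      have h8 : (Q.card : ℝ) ≤ (Nat.sqrt (2 * B1 * B2) : ℝ) := by exact_mod_cast h7
      refine h8.trans ?_
      have h9 := Real.nat_sqrt_le_real_sqrt (a := 2 * B1 * B2)
      refine h9.trans (le_of_eq ?_)
      congr 1
      rw [hXdef]; push_cast; ring
    have h6 : X * (2 / x ^ ζ) ≤ 2 * x ^ (-δ) * X := by
      have e3 : X * (2 / x ^ ζ) = 2 * (x ^ (-ζ) * X) := by rw [Real.rpow_neg hx0.le]; ring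
      rw [e3]
      linarith
    have h7 : √(2 * X) * W ≤ 2 * x ^ (-δ) * X := by
      have e1 : (W : ℝ) ^ 2 ≤ X * x ^ (-η) := by
        rw [← hUW, pow_two]
        calc (W : ℝ) * W ≤ (U * x ^ (-η)) * W := mul_le_mul_of_nonneg_right hW (by positivity)
          _ = _ := by ring
      have e2 : x ^ (-η) ≤ (x ^ (-δ)) ^ 2 := by
        rw [← Real.rpow_natCast (x ^ (-δ)), ← Real.rpow_mul hx0.le]
        exact mono _ _ (by push_cast; linarith)
      have e3 : (√(2 * X) * W) ^ 2 ≤ (2 * x ^ (-δ) * X) ^ 2 := by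
        rw [mul_pow, Real.sq_sqrt (by positivity)]
        calc 2 * X * (W : ℝ) ^ 2 ≤ 2 * X * (X * (x ^ (-δ)) ^ 2) := by
              refine mul_le_mul_of_nonneg_left (e1.trans ?_) (by positivity)
              exact mul_le_mul_of_nonneg_left e2 hX0.le
          _ ≤ 4 * X * (X * (x ^ (-δ)) ^ 2) := by
              have : 0 ≤ X * (X * (x ^ (-δ)) ^ 2) := by positivity
              nlinarith
          _ = _ := by ring
      exact (pow_le_pow_iff_left₀ (by positivity) (by positivity) two_ne_zero).mp e3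
    calc X * ∑ q ∈ Q, (1 : ℝ) / (q : ℝ) ^ 2 + Q.card * W ≤ X * (2 / x ^ ζ) + √(2 * X) * W :=
          add_le_add (mul_le_mul_of_nonneg_left h4 hX0.le)
            (mul_le_mul_of_nonneg_right h5 (by positivity))
      _ ≤ _ := by linarith
  have hpos2 : 0 ≤ 2 * x ^ (-δ) * X := by positivity
  -- case A
  have hA : ∑ q ∈ QA, ((Pq b B1 B2 a0 c0 q).card : ℝ) ≤ 2 / ζ * x ^ (-δ) * X := by
    have h1 := hsmall B1 B2 QA rfl hB2x (by
      intro q hq
      rw [hQA, mem_filter] at hq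
      obtain ⟨q1, q2, _⟩ := hmemQ q hq.1
      exact ⟨q2, card_A q1 hq.2⟩)
    have h2 : (QA.card : ℝ) ≤ 1 / ζ := by
      refine card_dvd hb hζ QA fun q hq => ?_
      rw [hQA, mem_filter] at hq
      obtain ⟨q1, q2, _⟩ := hmemQ q hq.1
      exact ⟨q1, hq.2, q2⟩
    refine h1.trans ?_
    calc (QA.card : ℝ) * (2 * x ^ (-δ) * X) ≤ (1 / ζ) * (2 * x ^ (-δ) * X) :=
          mul_le_mul_of_nonneg_right h2 hpos2
      _ = _ := by ring
  -- case B
  have hB : ∑ q ∈ QB, ((Pq b B1 B2 a0 c0 q).card : ℝ) ≤ (6 / ζ + 4) * x ^ (-δ) * X := by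
    rcases h12 with h12 | h12
    · have h1 := hsq B2 B1 QB (by rw [hXdef]; ring) h12 (fun _ h => h) (by
        intro q hq
        rw [hQB, mem_filter, hQ0, mem_filter] at hq
        exact card_B (hmemQ q hq.1.1).1 hq.1.2)
      refine h1.trans ?_
      have h2 : 0 ≤ 6 / ζ * x ^ (-δ) * X := by positivity
      linarith
    · set QD := QB.filter (fun q => q ∣ b ^ 2 + 1) with hQD
      set QE := QB.filter (fun q => ¬ q ∣ b ^ 2 + 1) with hQE
      have h0 : ∑ q ∈ QB, ((Pq b B1 B2 a0 c0 q).card : ℝ) =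
          ∑ q ∈ QD, ((Pq b B1 B2 a0 c0 q).card : ℝ) + ∑ q ∈ QE, ((Pq b B1 B2 a0 c0 q).card : ℝ) := by
        rw [hQD, hQE, Finset.sum_filter_add_sum_filter_not]
      have h1 := hsq B1 B2 QE rfl h12 (Finset.filter_subset _ _) (by
        intro q hq
        rw [hQE, mem_filter, hQB, mem_filter, hQ0, mem_filter] at hq
        exact card_B2 (hmemQ q hq.1.1.1).1 hq.2)
      have h2 := hsmall B2 B1 QD (by rw [hXdef]; ring) hB1x (by
        intro q hq
        rw [hQD, mem_filter, hQB, mem_filter, hQ0, mem_filter] at hq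
        obtain ⟨q1, q2, _⟩ := hmemQ q hq.1.1.1
        exact ⟨q2, card_A2 q1 hq.1.1.2 hq.2⟩)
      have h3 : (QD.card : ℝ) ≤ 3 / ζ := by
        refine card_dvd2 hb (m := b ^ 2 + 1) (by positivity) ?_ hζ QD fun q hq => ?_
        · nlinarith [Nat.pow_le_pow_left hb 2]
        · rw [hQD, mem_filter, hQB, mem_filter, hQ0, mem_filter] at hq
          obtain ⟨q1, q2, _⟩ := hmemQ q hq.1.1.1
          exact ⟨q1, hq.2, q2⟩
      have h4 : (QD.card : ℝ) * (2 * x ^ (-δ) * X) ≤ (3 / ζ) * (2 * x ^ (-δ) * X) :=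
        mul_le_mul_of_nonneg_right h3 hpos2
      have h5 : (6 / ζ + 4) * x ^ (-δ) * X = (3 / ζ) * (2 * x ^ (-δ) * X) + 4 * x ^ (-δ) * X := by
        ring
      rw [h0, h5]
      linarith
  -- case C
  have hC : ∑ q ∈ QC, ((Pq b B1 B2 a0 c0 q).card : ℝ) ≤ 52 * x ^ (-δ) * X := by
    have hbig : b ^ 3 ≤ (2 * B1 * B2) ^ 2 := by
      have h1 : x ^ (3 : ℝ) ≤ (2 * X) ^ 2 := by
        calc x ^ (3 : ℝ) ≤ x ^ ((8 / 5 : ℝ) * 2) := mono _ _ (by norm_num)
          _ = (x ^ (8 / 5 : ℝ)) ^ (2 : ℝ) := Real.rpow_mul hx0.le _ _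
          _ = (x ^ (8 / 5 : ℝ)) ^ 2 := by norm_num
          _ ≤ X ^ 2 := pow_le_pow_left₀ (by positivity) hX 2
          _ ≤ (2 * X) ^ 2 := pow_le_pow_left₀ hX0.le (by linarith) 2
      have h2 : x ^ (3 : ℝ) = x ^ 3 := by norm_num
      rw [h2] at h1
      have h3 : ((b ^ 3 : ℕ) : ℝ) ≤ (((2 * B1 * B2) ^ 2 : ℕ) : ℝ) := by
        push_cast
        refine h1.trans (le_of_eq ?_)
        rw [hXdef]; ring
      exact_mod_cast h3
    have hK1 : (1 : ℝ) ≤ x ^ (1 / 20 : ℝ) := Real.one_le_rpow hx1 (by norm_num)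
    have h1 := sum_C2 (a0 := a0) (c0 := c0) hB1p hB2p hB1 hB2 hbig (x ^ (1 / 20 : ℝ)) hK1 QC (by
      intro q hq
      rw [hQC, mem_filter, hQ0, mem_filter] at hq
      exact ⟨(hmemQ q hq.1.1).1, hq.1.2, not_le.mp hq.2⟩)
    refine h1.trans ?_
    have h2 : (QC.card : ℝ) ≤ 2 * x ^ (3 / 2 : ℝ) := by
      refine le_trans ?_ (card_QQ (by omega) ζ)
      have : QC ⊆ QQ b ζ := (Finset.filter_subset _ _).trans (Finset.filter_subset _ _)
      exact_mod_cast Finset.card_le_card this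
    have h3 : (QC.card : ℝ) * (1 + x ^ (1 / 20 : ℝ)) ≤ 4 * x ^ (-δ) * X := by
      calc (QC.card : ℝ) * (1 + x ^ (1 / 20 : ℝ)) ≤ (2 * x ^ (3 / 2 : ℝ)) * (2 * x ^ (1 / 20 : ℝ)) :=
            mul_le_mul h2 (by linarith) (by positivity) (by positivity)
        _ = 4 * x ^ (3 / 2 + 1 / 20 : ℝ) := by rw [Real.rpow_add hx0]; ring
        _ ≤ 4 * x ^ (-δ + 8 / 5) := by
            refine mul_le_mul_of_nonneg_left (mono _ _ (by linarith)) (by norm_num)
        _ = 4 * x ^ (-δ) * x ^ (8 / 5 : ℝ) := by rw [Real.rpow_add hx0]; ring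
        _ ≤ 4 * x ^ (-δ) * X := mul_le_mul_of_nonneg_left hX (by positivity)
    have h4 : 2 / x ^ (1 / 20 : ℝ) ≤ 2 * x ^ (-δ) := by
      rw [div_eq_mul_inv, ← Real.rpow_neg hx0.le]
      exact mul_le_mul_of_nonneg_left (mono _ _ (by linarith)) (by norm_num)
    have h5 : ∀ u : ℝ, x ^ (3 / 5 : ℝ) ≤ u → 2 * √x / u ≤ 2 * x ^ (-δ) := by
      intro u hu
      have hu0 : 0 < u := lt_of_lt_of_le (Real.rpow_pos_of_pos hx0 _) hu
      rw [div_le_iff₀ hu0, Real.sqrt_eq_rpow]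
      calc 2 * x ^ (1 / 2 : ℝ) ≤ 2 * x ^ (-δ + 3 / 5) :=
            mul_le_mul_of_nonneg_left (mono _ _ (by linarith)) (by norm_num)
        _ = 2 * x ^ (-δ) * x ^ (3 / 5 : ℝ) := by rw [Real.rpow_add hx0]; ring
        _ ≤ 2 * x ^ (-δ) * u := mul_le_mul_of_nonneg_left hu (by positivity)
    have h6 := h5 B2 hl2
    have h7 := h5 B1 hl1
    have h8 : 8 * X * (2 / x ^ (1 / 20 : ℝ) + 2 * √x / B2 + 2 * √x / B1) ≤
        8 * X * (6 * x ^ (-δ)) := mul_le_mul_of_nonneg_left (by linarith) (by positivity)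
    have h9 : 52 * x ^ (-δ) * X = 4 * x ^ (-δ) * X + 8 * X * (6 * x ^ (-δ)) := by ring
    rw [h9]
    exact add_le_add h3 h8
  rw [hsplit] at hcard
  have hfin : (8 / ζ + 56) * x ^ (-δ) * X = 2 / ζ * x ^ (-δ) * X + ((6 / ζ + 4) * x ^ (-δ) * X +
      52 * x ^ (-δ) * X) := by ring
  rw [hfin]
  linarith

theorem sq' : Pool.Agent.Zk41.TD.S_SQ' := by
  classical
  intro ζ η hζ hη _
  set δ : ℝ := min ζ (min (η / 2) (1 / 20)) with hδ
  have hδ0 : 0 < δ := by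
    rw [hδ]; exact lt_min hζ (lt_min (by linarith) (by norm_num))
  refine ⟨δ / 2, by linarith, ?_⟩
  have hlim : Tendsto (fun b : ℕ => ((b : ℝ)) ^ (δ / 2)) atTop atTop :=
    (tendsto_rpow_atTop (by linarith)).comp tendsto_natCast_atTop_atTop
  obtain ⟨b1, hb1⟩ := Filter.eventually_atTop.mp (hlim.eventually_ge_atTop (8 / ζ + 56))
  refine ⟨max b1 2, ?_⟩
  intro b hb B1 B2 a0 c0 hB1 hB2 hX h12 ha hab hcb
  have hb2 : 2 ≤ b := (le_max_right _ _).trans hb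
  have hx0 : (0 : ℝ) < b := by
    have : 0 < b := by omega
    exact_mod_cast this
  have h1 := main_bd2 (a0 := a0) (c0 := c0) hb2 hζ hη hB1 hB2 hX h12 ha hab hcb
    ((Ico a0 (a0 + B1) ×ˢ Ico c0 (c0 + B2)).filter (fun z : ℕ × ℕ => ∃ q : ℕ, q.Prime ∧
      (b : ℝ) ^ ζ ≤ q ∧ q ^ 2 ∣ Pool.Agent.Zk41.TD.pal b z.1 z.2)) (by
        intro z hz
        rw [mem_filter] at hz
        exact ⟨hz.1, hz.2⟩)
  refine h1.trans ?_
  refine mul_le_mul_of_nonneg_right ?_ (by positivity)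
  have h2 : (8 / ζ + 56) ≤ (b : ℝ) ^ (δ / 2) := hb1 b ((le_max_left _ _).trans hb)
  calc (8 / ζ + 56) * (b : ℝ) ^ (-δ) ≤ (b : ℝ) ^ (δ / 2) * (b : ℝ) ^ (-δ) :=
        mul_le_mul_of_nonneg_right h2 (by positivity)
    _ = (b : ℝ) ^ (-(δ / 2)) := by
        rw [← Real.rpow_add hx0]; congr 1; ring

end Pool.Agent.Zk78.TD
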