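import Mathlib

/-! Few three-digit palindromes in a box are divisible by the square of a large prime: the counts. -/

set_option autoImplicit false

open Finset

namespace Pool.Agent.Zk78.TD

/-- the number with the base-`b` digits `a c a` -/
def pl (b a c : ℕ) : ℕ := a * (b ^ 2 + 1) + c * b

/-- the linear form of differences -/
def lf (b : ℕ) (u w : ℤ) : ℤ := u * ((b : ℤ) ^ 2 + 1) + w * b

def bx (B1 B2 a0 c0 : ℕ) : Finset (ℕ × ℕ) := Ico a0 (a0 + B1) ×ˢ Ico c0 (c0 + B2)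

def Pq (b B1 B2 a0 c0 q : ℕ) : Finset (ℕ × ℕ) :=
  (bx B1 B2 a0 c0).filter (fun z => q ^ 2 ∣ pl b z.1 z.2)

lemma mem_Pq {b B1 B2 a0 c0 q : ℕ} {z : ℕ × ℕ} : z ∈ Pq b B1 B2 a0 c0 q ↔
    (a0 ≤ z.1 ∧ z.1 < a0 + B1) ∧ (c0 ≤ z.2 ∧ z.2 < c0 + B2) ∧ q ^ 2 ∣ pl b z.1 z.2 := by
  unfold Pq bx
  simp only [mem_filter, mem_product, mem_Ico]
  tauto

lemma dvd_lf {b q : ℕ} {z z' : ℕ × ℕ} (h : q ^ 2 ∣ pl b z.1 z.2) (h' : q ^ 2 ∣ pl b z'.1 z'.2) :
    ((q : ℤ) ^ 2) ∣ lf b ((z.1 : ℤ) - z'.1) ((z.2 : ℤ) - z'.2) := by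
  have h1 : ((q : ℤ) ^ 2) ∣ (pl b z.1 z.2 : ℤ) := by exact_mod_cast h
  have h2 : ((q : ℤ) ^ 2) ∣ (pl b z'.1 z'.2 : ℤ) := by exact_mod_cast h'
  have h3 := dvd_sub h1 h2
  have h4 : (pl b z.1 z.2 : ℤ) - (pl b z'.1 z'.2 : ℤ) =
      lf b ((z.1 : ℤ) - z'.1) ((z.2 : ℤ) - z'.2) := by
    unfold pl lf; push_cast; ring
  rwa [h4] at h3

lemma sep_card {α : Type*} (S : Finset α) (f : α → ℕ) (n0 L m : ℕ) (hm : 0 < m)
    (hf : ∀ x ∈ S, n0 ≤ f x ∧ f x < n0 + L)
    (hs : ∀ x ∈ S, ∀ y ∈ S, x ≠ y → (m : ℤ) ≤ |(f x : ℤ) - f y|) : S.card ≤ L / m + 1 := by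
  rw [← Finset.card_range (L / m + 1)]
  refine Finset.card_le_card_of_injOn (fun x => (f x - n0) / m) ?_ ?_
  · intro x hx
    have := hf x hx
    simp only [coe_range, Set.mem_Iio]
    have : (f x - n0) / m ≤ L / m := Nat.div_le_div_right (by omega)
    omega
  · intro x hx y hy hxy
    by_contra hne
    have h1 := hs x hx y hy hne
    have h2 := hf x hx
    have h3 := hf y hy
    simp only at hxy
    have e1 := Nat.div_add_mod (f x - n0) m
    have e2 := Nat.div_add_mod (f y - n0) m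
    have e3 := Nat.mod_lt (f x - n0) hm
    have e4 := Nat.mod_lt (f y - n0) hm
    rw [hxy] at e1
    rcases le_abs.mp h1 with h | h <;> omega

/-- case A -/
lemma card_A {b B1 B2 a0 c0 q : ℕ} (hq : q.Prime) (hqb : q ∣ b) :
    (Pq b B1 B2 a0 c0 q).card ≤ (B1 / q + 1) * B2 := by
  classical
  have h1 := Finset.card_le_mul_card_image (f := Prod.snd) (Pq b B1 B2 a0 c0 q) (B1 / q + 1) ?_
  · have h2 : ((Pq b B1 B2 a0 c0 q).image Prod.snd).card ≤ B2 := by
      calc _ ≤ (Ico c0 (c0 + B2)).card := by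
            refine Finset.card_le_card ?_
            intro c hc
            obtain ⟨z, hz, rfl⟩ := Finset.mem_image.mp hc
            rw [mem_Pq] at hz
            rw [mem_Ico]; exact hz.2.1
        _ = B2 := by simp
    exact h1.trans (Nat.mul_le_mul_left _ h2)
  · intro c _
    refine sep_card _ (fun z => z.1) a0 B1 q hq.pos ?_ ?_
    · intro z hz
      simp only [mem_filter, mem_Pq] at hz
      exact hz.1.1
    · intro z hz z' hz' hne
      simp only [mem_filter, mem_Pq] at hz hz'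
      have hd : ∀ z : ℕ × ℕ, q ^ 2 ∣ pl b z.1 z.2 → (q : ℤ) ∣ (z.1 : ℤ) := by
        intro z hz
        have h3 : q ∣ pl b z.1 z.2 := (dvd_pow_self q two_ne_zero).trans hz
        have h4 : q ∣ z.1 := by
          obtain ⟨k, hk⟩ := hqb
          have h5 : pl b z.1 z.2 = z.1 + q * (k * (z.1 * b + z.2)) := by
            unfold pl
            rw [show z.1 * (b ^ 2 + 1) + z.2 * b = z.1 + b * (z.1 * b + z.2) by ring]
            conv_lhs => rw [show b * (z.1 * b + z.2) = (q * k) * (z.1 * b + z.2) by rw [← hk]]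
            ring
          rw [h5] at h3
          exact (Nat.dvd_add_left (dvd_mul_right _ _)).mp h3
        exact_mod_cast h4
      have h6 : (q : ℤ) ∣ |(z.1 : ℤ) - z'.1| := (dvd_abs _ _).mpr (dvd_sub (hd z hz.1.2.2) (hd z' hz'.1.2.2))
      have h7 : (z.1 : ℤ) - z'.1 ≠ 0 := by
        intro h0
        apply hne
        have : z.1 = z'.1 := by omega
        exact Prod.ext this (hz.2.trans hz'.2.symm)
      exact Int.le_of_dvd (abs_pos.mpr h7) h6

lemma cop_sq {b q : ℕ} (hq : q.Prime) (hqb : ¬ q ∣ b) : IsCoprime ((q : ℤ) ^ 2) (b : ℤ) := by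
  have : Nat.Coprime q b := (Nat.Prime.coprime_iff_not_dvd hq).mpr hqb
  exact IsCoprime.pow_left (Nat.isCoprime_iff_coprime.mpr this)

/-- case B -/
lemma card_B {b B1 B2 a0 c0 q : ℕ} (hq : q.Prime) (hqb : ¬ q ∣ b) :
    (Pq b B1 B2 a0 c0 q).card ≤ (B2 / q ^ 2 + 1) * B1 := by
  classical
  have h1 := Finset.card_le_mul_card_image (f := Prod.fst) (Pq b B1 B2 a0 c0 q) (B2 / q ^ 2 + 1) ?_
  · have h2 : ((Pq b B1 B2 a0 c0 q).image Prod.fst).card ≤ B1 := by
      calc _ ≤ (Ico a0 (a0 + B1)).card := by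
            refine Finset.card_le_card ?_
            intro c hc
            obtain ⟨z, hz, rfl⟩ := Finset.mem_image.mp hc
            rw [mem_Pq] at hz
            rw [mem_Ico]; exact hz.1
        _ = B1 := by simp
    exact h1.trans (Nat.mul_le_mul_left _ h2)
  · intro c _
    refine sep_card _ (fun z => z.2) c0 B2 (q ^ 2) (pow_pos hq.pos 2) ?_ ?_
    · intro z hz
      simp only [mem_filter, mem_Pq] at hz
      exact hz.1.2.1
    · intro z hz z' hz' hne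
      simp only [mem_filter, mem_Pq] at hz hz'
      have h3 := dvd_lf hz.1.2.2 hz'.1.2.2
      have h4 : z.1 = z'.1 := hz.2.trans hz'.2.symm
      have h5 : lf b ((z.1 : ℤ) - z'.1) ((z.2 : ℤ) - z'.2) = ((z.2 : ℤ) - z'.2) * b := by
        unfold lf; rw [h4]; ring
      rw [h5] at h3
      have h6 : ((q : ℤ) ^ 2) ∣ (z.2 : ℤ) - z'.2 := (cop_sq hq hqb).dvd_of_dvd_mul_right h3
      have h7 : (z.2 : ℤ) - z'.2 ≠ 0 := by
        intro h0
        apply hne
        exact Prod.ext h4 (by omega)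
      have h8 := Int.le_of_dvd (abs_pos.mpr h7) ((dvd_abs _ _).mpr h6)
      push_cast
      exact h8

/-- the determinant vanishes -/
lemma det_zero {b B1 B2 a0 c0 q : ℕ} (hq : q.Prime) (hqb : ¬ q ∣ b) (hqB : 2 * B1 * B2 < q ^ 2)
    {x x' y y' : ℕ × ℕ} (hx : x ∈ Pq b B1 B2 a0 c0 q) (hx' : x' ∈ Pq b B1 B2 a0 c0 q)
    (hy : y ∈ Pq b B1 B2 a0 c0 q) (hy' : y' ∈ Pq b B1 B2 a0 c0 q) :
    ((x.1 : ℤ) - x'.1) * ((y.2 : ℤ) - y'.2) = ((y.1 : ℤ) - y'.1) * ((x.2 : ℤ) - x'.2) := by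
  rw [mem_Pq] at hx hx' hy hy'
  have h1 := dvd_lf hx.2.2 hx'.2.2
  have h2 := dvd_lf hy.2.2 hy'.2.2
  set u := (x.1 : ℤ) - x'.1 with hu
  set w := (x.2 : ℤ) - x'.2 with hw
  set u' := (y.1 : ℤ) - y'.1 with hu'
  set w' := (y.2 : ℤ) - y'.2 with hw'
  have h3 : ((q : ℤ) ^ 2) ∣ (u * w' - u' * w) * b := by
    have h4 := dvd_sub (dvd_mul_of_dvd_right h2 u) (dvd_mul_of_dvd_right h1 u')
    have h5 : u * lf b u' w' - u' * lf b u w = (u * w' - u' * w) * b := by unfold lf; ring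
    rwa [h5] at h4
  have h6 : ((q : ℤ) ^ 2) ∣ u * w' - u' * w := (cop_sq hq hqb).dvd_of_dvd_mul_right h3
  have e1 : |u| < B1 := by rw [abs_lt]; constructor <;> omega
  have e2 : |w| < B2 := by rw [abs_lt]; constructor <;> omega
  have e3 : |u'| < B1 := by rw [abs_lt]; constructor <;> omega
  have e4 : |w'| < B2 := by rw [abs_lt]; constructor <;> omega
  have e5 : |u * w' - u' * w| < (q : ℤ) ^ 2 := by
    have f1 : |u * w'| ≤ B1 * B2 := by
      rw [abs_mul]; exact mul_le_mul e1.le e4.le (abs_nonneg _) (by positivity)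
    have f2 : |u' * w| ≤ B1 * B2 := by
      rw [abs_mul]; exact mul_le_mul e3.le e2.le (abs_nonneg _) (by positivity)
    have f3 := abs_sub (u * w') (u' * w)
    have f4 : ((2 * B1 * B2 : ℕ) : ℤ) < ((q ^ 2 : ℕ) : ℤ) := by exact_mod_cast hqB
    push_cast at f4
    nlinarith
  have h7 := Int.eq_zero_of_abs_lt_dvd h6 e5
  linarith

/-- the norm of a vector -/
def nm (v : ℤ × ℤ) : ℕ := max v.1.natAbs v.2.natAbs

/-- case C -/
lemma card_C {b B1 B2 a0 c0 q : ℕ} (hB : B1 ≤ B2) (hq : q.Prime) (hqb : ¬ q ∣ b)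
    (hqB : 2 * B1 * B2 < q ^ 2) (hc : 2 ≤ (Pq b B1 B2 a0 c0 q).card) :
    ∃ v : ℤ × ℤ, 0 < nm v ∧ v.1.natAbs < B1 ∧ v.2.natAbs < B2 ∧ ((q : ℤ) ^ 2) ∣ lf b v.1 v.2 ∧
      (Pq b B1 B2 a0 c0 q).card ≤ B2 / nm v + 1 := by
  classical
  set S := Pq b B1 B2 a0 c0 q with hS
  have hne : S.offDiag.Nonempty := by
    obtain ⟨x, hx, y, hy, hxy⟩ := Finset.one_lt_card.mp (by omega : 1 < S.card)
    exact ⟨(x, y), Finset.mem_offDiag.mpr ⟨hx, hy, hxy⟩⟩
  set N : (ℕ × ℕ) × (ℕ × ℕ) → ℕ := fun e =>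
    nm ((e.1.1 : ℤ) - e.2.1, (e.1.2 : ℤ) - e.2.2) with hN
  obtain ⟨e, he, hmin⟩ := Finset.exists_min_image S.offDiag N hne
  rw [Finset.mem_offDiag] at he
  obtain ⟨hx, hx', hxx⟩ := he
  have hx0 := hx
  have hx0' := hx'
  rw [hS, mem_Pq] at hx hx'
  set u := (e.1.1 : ℤ) - e.2.1 with hu
  set w := (e.1.2 : ℤ) - e.2.2 with hw
  have hNe : N e = nm (u, w) := rfl
  have hpos : 0 < nm (u, w) := by
    unfold nm
    rw [lt_max_iff]
    by_contra hcon
    push Not at hcon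
    apply hxx
    refine Prod.ext ?_ ?_
    · have := hcon.1; simp only at this; omega
    · have := hcon.2; simp only at this; omega
  refine ⟨(u, w), hpos, ?_, ?_, dvd_lf hx.2.2 hx'.2.2, ?_⟩
  · simp only; omega
  · simp only; omega
  · have key : ∀ y ∈ S, ∀ y' ∈ S, y ≠ y' →
        nm (u, w) ≤ nm ((y.1 : ℤ) - y'.1, (y.2 : ℤ) - y'.2) ∧
          u * ((y.2 : ℤ) - y'.2) = ((y.1 : ℤ) - y'.1) * w := by
      intro y hy y' hy' hyy
      refine ⟨?_, det_zero hq hqb hqB hx0 hx0' hy hy'⟩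
      exact hmin (y, y') (Finset.mem_offDiag.mpr ⟨hy, hy', hyy⟩)
    have hmono : B1 / nm (u, w) ≤ B2 / nm (u, w) := Nat.div_le_div_right hB
    rcases le_total w.natAbs u.natAbs with huw | huw
    · have hnm : nm (u, w) = u.natAbs := by unfold nm; exact max_eq_left huw
      refine (sep_card S (fun z => z.1) a0 B1 (nm (u, w)) hpos ?_ ?_).trans (by omega)
      · intro z hz; rw [hS, mem_Pq] at hz; exact hz.1
      · intro y hy y' hy' hyy
        obtain ⟨k1, k2⟩ := key y hy y' hy' hyy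
        set s := (y.1 : ℤ) - y'.1 with hs
        set t := (y.2 : ℤ) - y'.2 with ht
        have k3 : u.natAbs * t.natAbs = s.natAbs * w.natAbs := by
          rw [← Int.natAbs_mul, ← Int.natAbs_mul, k2]
        have k4 : t.natAbs ≤ s.natAbs := by
          have hu0 : 0 < u.natAbs := by rw [← hnm]; exact hpos
          have k5 : u.natAbs * t.natAbs ≤ u.natAbs * s.natAbs := by
            rw [k3, mul_comm u.natAbs]; exact Nat.mul_le_mul_left _ huw
          exact Nat.le_of_mul_le_mul_left k5 hu0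
        have k6 : nm (s, t) = s.natAbs := by unfold nm; exact max_eq_left k4
        rw [k6] at k1
        show ((nm (u, w) : ℕ) : ℤ) ≤ |s|
        rw [Int.abs_eq_natAbs]
        exact_mod_cast k1
    · have hnm : nm (u, w) = w.natAbs := by unfold nm; exact max_eq_right huw
      refine sep_card S (fun z => z.2) c0 B2 (nm (u, w)) hpos ?_ ?_
      · intro z hz; rw [hS, mem_Pq] at hz; exact hz.2.1
      · intro y hy y' hy' hyy
        obtain ⟨k1, k2⟩ := key y hy y' hy' hyy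
        set s := (y.1 : ℤ) - y'.1 with hs
        set t := (y.2 : ℤ) - y'.2 with ht
        have k3 : u.natAbs * t.natAbs = s.natAbs * w.natAbs := by
          rw [← Int.natAbs_mul, ← Int.natAbs_mul, k2]
        have k4 : s.natAbs ≤ t.natAbs := by
          have hw0 : 0 < w.natAbs := by rw [← hnm]; exact hpos
          have k5 : s.natAbs * w.natAbs ≤ t.natAbs * w.natAbs := by
            rw [← k3, mul_comm t.natAbs]; exact Nat.mul_le_mul_right _ huw
          exact Nat.le_of_mul_le_mul_right k5 hw0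
        have k6 : nm (s, t) = t.natAbs := by unfold nm; exact max_eq_right k4
        rw [k6] at k1
        show ((nm (u, w) : ℕ) : ℤ) ≤ |t|
        rw [Int.abs_eq_natAbs]
        exact_mod_cast k1

/-- a short nonzero vector belongs to at most one large prime -/
lemma inj_C {b B1 B2 q q' : ℕ} (hb : B1 ≤ b) (hb2 : B2 ≤ b) (hB : b ^ 3 ≤ (2 * B1 * B2) ^ 2)
    (hq : q.Prime) (hq' : q'.Prime) (hqB : 2 * B1 * B2 < q ^ 2) (hqB' : 2 * B1 * B2 < q' ^ 2)
    {v : ℤ × ℤ} (h0 : 0 < nm v) (h1 : v.1.natAbs < B1) (h2 : v.2.natAbs < B2)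
    (hd : ((q : ℤ) ^ 2) ∣ lf b v.1 v.2) (hd' : ((q' : ℤ) ^ 2) ∣ lf b v.1 v.2) : q = q' := by
  by_contra hne
  have hcop : IsCoprime ((q : ℤ) ^ 2) ((q' : ℤ) ^ 2) :=
    IsCoprime.pow (Nat.isCoprime_iff_coprime.mpr ((Nat.coprime_primes hq hq').mpr hne))
  have h3 := hcop.mul_dvd hd hd'
  have h4 : lf b v.1 v.2 ≠ 0 := by
    intro h
    unfold lf at h
    have hbd : (b : ℤ) ∣ v.1 := by
      refine ⟨-(v.1 * b + v.2), ?_⟩
      linarith
    have hu : v.1 = 0 := by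
      refine Int.eq_zero_of_abs_lt_dvd hbd ?_
      rw [Int.abs_eq_natAbs]
      have : v.1.natAbs < b := by omega
      exact_mod_cast this
    rw [hu] at h
    have hbpos : 0 < b := by omega
    have hv : v.2 = 0 := by
      have : v.2 * (b : ℤ) = 0 := by linarith
      rcases mul_eq_zero.mp this with h | h
      · exact h
      · exfalso; have : b = 0 := by exact_mod_cast h
        omega
    unfold nm at h0
    rw [hu, hv] at h0
    simp at h0
  have h5 := Int.le_of_dvd (abs_pos.mpr h4) ((dvd_abs _ _).mpr h3)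
  have h6 : |lf b v.1 v.2| < (b : ℤ) ^ 3 := by
    have f1 : |v.1| ≤ (b : ℤ) - 1 := by rw [Int.abs_eq_natAbs]; omega
    have f2 : |v.2| ≤ (b : ℤ) - 1 := by rw [Int.abs_eq_natAbs]; omega
    have f3 : |lf b v.1 v.2| ≤ |v.1| * ((b : ℤ) ^ 2 + 1) + |v.2| * b := by
      unfold lf
      refine (abs_add_le _ _).trans ?_
      rw [abs_mul, abs_mul, abs_of_nonneg (by positivity : (0 : ℤ) ≤ (b : ℤ) ^ 2 + 1),
        abs_of_nonneg (by positivity : (0 : ℤ) ≤ (b : ℤ))]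
    have f4 : |v.1| * ((b : ℤ) ^ 2 + 1) ≤ ((b : ℤ) - 1) * ((b : ℤ) ^ 2 + 1) :=
      mul_le_mul_of_nonneg_right f1 (by positivity)
    have f5 : |v.2| * (b : ℤ) ≤ ((b : ℤ) - 1) * b := mul_le_mul_of_nonneg_right f2 (by positivity)
    nlinarith
  have h7 : ((b ^ 3 : ℕ) : ℤ) ≤ (((2 * B1 * B2) ^ 2 : ℕ) : ℤ) := by exact_mod_cast hB
  have h8 : ((2 * B1 * B2 : ℕ) : ℤ) < (q : ℤ) ^ 2 := by exact_mod_cast hqB
  have h9 : ((2 * B1 * B2 : ℕ) : ℤ) < (q' : ℤ) ^ 2 := by exact_mod_cast hqB'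
  have h10 : (((2 * B1 * B2) ^ 2 : ℕ) : ℤ) ≤ (q : ℤ) ^ 2 * (q' : ℤ) ^ 2 := by
    rw [pow_two]
    push_cast at h8 h9 ⊢
    exact mul_le_mul h8.le h9.le (by positivity) (by positivity)
  push_cast at h7 h10
  linarith

end Pool.Agent.Zk78.TD
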