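import Pool.Agent.Zk78.TD.SQ0

/-! The sum over short vectors. -/

set_option autoImplicit false

open Finset

namespace Pool.Agent.Zk78.TD

/-- the nonzero vectors of sup norm at most `n` -/
noncomputable def Vn (n : ℕ) : Finset (ℤ × ℤ) :=
  (Icc (-(n : ℤ)) n ×ˢ Icc (-(n : ℤ)) n).filter (fun v => 0 < nm v)

lemma mem_Vn {n : ℕ} {v : ℤ × ℤ} (h0 : 0 < nm v) (h : nm v ≤ n) : v ∈ Vn n := by
  unfold Vn
  unfold nm at h
  rw [max_le_iff] at h
  simp only [mem_filter, mem_product, mem_Icc]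
  refine ⟨⟨⟨by omega, by omega⟩, ⟨by omega, by omega⟩⟩, h0⟩

lemma inner_le (n : ℕ) (w : ℤ) :
    ∑ u ∈ Icc (-(n : ℤ)) n, (if w ≠ 0 ∧ u.natAbs ≤ w.natAbs then (1 : ℝ) / w.natAbs else 0) ≤
      if w ≠ 0 then 3 else 0 := by
  by_cases hw : w = 0
  · simp [hw]
  rw [if_pos hw]
  rw [← Finset.sum_filter, Finset.sum_const, nsmul_eq_mul]
  have h1 : ((Icc (-(n : ℤ)) n).filter (fun u => w ≠ 0 ∧ u.natAbs ≤ w.natAbs)).card ≤
      2 * w.natAbs + 1 := by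
    calc _ ≤ (Icc (-(w.natAbs : ℤ)) w.natAbs).card := by
          refine Finset.card_le_card ?_
          intro u hu
          simp only [mem_filter, mem_Icc] at hu ⊢
          omega
      _ = _ := by rw [Int.card_Icc]; omega
  have h2 : (1 : ℝ) ≤ w.natAbs := by
    have : 1 ≤ w.natAbs := by omega
    exact_mod_cast this
  have h3 : ((((Icc (-(n : ℤ)) n).filter (fun u => w ≠ 0 ∧ u.natAbs ≤ w.natAbs)).card : ℕ) : ℝ) ≤
      2 * w.natAbs + 1 := by exact_mod_cast h1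
  rw [mul_one_div, div_le_iff₀ (by linarith)]
  linarith

lemma outer_le (n : ℕ) : ∑ w ∈ Icc (-(n : ℤ)) n, (if w ≠ 0 then (3 : ℝ) else 0) ≤ 6 * n := by
  rw [← Finset.sum_filter, Finset.sum_const, nsmul_eq_mul]
  have h1 : ((Icc (-(n : ℤ)) n).filter (fun w => w ≠ 0)).card ≤ 2 * n := by
    have h2 : ((Icc (-(n : ℤ)) n).filter (fun w => w ≠ 0)) = (Icc (-(n : ℤ)) n).erase 0 := by
      ext w; simp only [mem_filter, mem_Icc, mem_erase]; tauto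
    rw [h2, Finset.card_erase_of_mem (by rw [mem_Icc]; omega), Int.card_Icc]
    omega
  have h3 : ((((Icc (-(n : ℤ)) n).filter (fun w => w ≠ 0)).card : ℕ) : ℝ) ≤ 2 * n := by
    exact_mod_cast h1
  linarith

lemma sum_Vn (n : ℕ) : ∑ v ∈ Vn n, (1 : ℝ) / nm v ≤ 12 * n := by
  have h1 : ∀ v ∈ Vn n, (1 : ℝ) / nm v ≤
      (if v.2 ≠ 0 ∧ v.1.natAbs ≤ v.2.natAbs then (1 : ℝ) / v.2.natAbs else 0) +
      (if v.1 ≠ 0 ∧ v.2.natAbs ≤ v.1.natAbs then (1 : ℝ) / v.1.natAbs else 0) := by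
    intro v hv
    unfold Vn at hv
    rw [mem_filter] at hv
    have h0 := hv.2
    rcases le_total v.1.natAbs v.2.natAbs with h | h
    · have h2 : nm v = v.2.natAbs := by unfold nm; exact max_eq_right h
      have h3 : v.2 ≠ 0 := by rw [h2] at h0; omega
      rw [if_pos ⟨h3, h⟩, h2]
      have : (0 : ℝ) ≤ if v.1 ≠ 0 ∧ v.2.natAbs ≤ v.1.natAbs then (1 : ℝ) / v.1.natAbs else 0 := by
        split_ifs <;> positivity
      linarith
    · have h2 : nm v = v.1.natAbs := by unfold nm; exact max_eq_left h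
      have h3 : v.1 ≠ 0 := by rw [h2] at h0; omega
      rw [if_pos (⟨h3, h⟩ : v.1 ≠ 0 ∧ v.2.natAbs ≤ v.1.natAbs), h2]
      have : (0 : ℝ) ≤ if v.2 ≠ 0 ∧ v.1.natAbs ≤ v.2.natAbs then (1 : ℝ) / v.2.natAbs else 0 := by
        split_ifs <;> positivity
      linarith
  refine (Finset.sum_le_sum h1).trans ?_
  unfold Vn
  refine (Finset.sum_le_sum_of_subset_of_nonneg (Finset.filter_subset _ _) ?_).trans ?_
  · intro v _ _
    have a1 : (0 : ℝ) ≤ if v.1 ≠ 0 ∧ v.2.natAbs ≤ v.1.natAbs then (1 : ℝ) / v.1.natAbs else 0 := by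
      split_ifs <;> positivity
    have a2 : (0 : ℝ) ≤ if v.2 ≠ 0 ∧ v.1.natAbs ≤ v.2.natAbs then (1 : ℝ) / v.2.natAbs else 0 := by
      split_ifs <;> positivity
    linarith
  · rw [Finset.sum_add_distrib]
    have h2 : ∑ v ∈ Icc (-(n : ℤ)) n ×ˢ Icc (-(n : ℤ)) n,
        (if v.2 ≠ 0 ∧ v.1.natAbs ≤ v.2.natAbs then (1 : ℝ) / v.2.natAbs else 0) ≤ 6 * n := by
      rw [Finset.sum_product_right]
      exact (Finset.sum_le_sum fun w _ => inner_le n w).trans (outer_le n)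
    have h3 : ∑ v ∈ Icc (-(n : ℤ)) n ×ˢ Icc (-(n : ℤ)) n,
        (if v.1 ≠ 0 ∧ v.2.natAbs ≤ v.1.natAbs then (1 : ℝ) / v.1.natAbs else 0) ≤ 6 * n := by
      rw [Finset.sum_product]
      exact (Finset.sum_le_sum fun w _ => inner_le n w).trans (outer_le n)
    linarith

/-- the sum over the primes with many points -/
lemma sum_C {b B1 B2 a0 c0 : ℕ} (hB12 : B1 ≤ B2) (hb2 : B2 ≤ b)
    (hB : b ^ 3 ≤ (2 * B1 * B2) ^ 2) (K : ℝ) (hK : 1 ≤ K) (Q : Finset ℕ)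
    (hQ : ∀ q ∈ Q, q.Prime ∧ ¬ q ∣ b ∧ 2 * B1 * B2 < q ^ 2) :
    ∑ q ∈ Q, ((Pq b B1 B2 a0 c0 q).card : ℝ) ≤ Q.card * (1 + K) + 24 * (B2 : ℝ) * (B2 / K) := by
  classical
  have h1 : ∑ q ∈ Q, ((Pq b B1 B2 a0 c0 q).card : ℝ) ≤ ∑ _q ∈ Q, (1 + K) +
      ∑ q ∈ Q.filter (fun q => 1 + K < (Pq b B1 B2 a0 c0 q).card),
        ((Pq b B1 B2 a0 c0 q).card : ℝ) := by
    rw [Finset.sum_filter, ← Finset.sum_add_distrib]
    refine Finset.sum_le_sum fun q _ => ?_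
    split_ifs with h
    · linarith
    · push Not at h; linarith
  refine h1.trans ?_
  rw [Finset.sum_const, nsmul_eq_mul]
  refine add_le_add le_rfl ?_
  set Q2 := Q.filter (fun q => 1 + K < (Pq b B1 B2 a0 c0 q).card) with hQ2
  have h2 : ∀ q ∈ Q2, ∃ v : ℤ × ℤ, 0 < nm v ∧ v.1.natAbs < B1 ∧ v.2.natAbs < B2 ∧
      ((q : ℤ) ^ 2) ∣ lf b v.1 v.2 ∧ (Pq b B1 B2 a0 c0 q).card ≤ B2 / nm v + 1 := by
    intro q hq
    rw [hQ2, mem_filter] at hq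
    obtain ⟨q1, q2, q3⟩ := hQ q hq.1
    refine card_C hB12 q1 q2 q3 ?_
    have : (1 : ℝ) < (Pq b B1 B2 a0 c0 q).card := by linarith [hq.2]
    have : 1 < (Pq b B1 B2 a0 c0 q).card := by exact_mod_cast this
    omega
  choose! v hv using h2
  have hle : ∀ q ∈ Q2, ((Pq b B1 B2 a0 c0 q).card : ℝ) ≤ 2 * B2 * (1 / nm (v q)) ∧
      (nm (v q) : ℝ) ≤ B2 / K := by
    intro q hq
    obtain ⟨v1, v2, v3, v4, v5⟩ := hv q hq
    rw [hQ2, mem_filter] at hq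
    have e0 : (0 : ℝ) < nm (v q) := by exact_mod_cast v1
    have e1 : ((Pq b B1 B2 a0 c0 q).card : ℝ) ≤ B2 / nm (v q) + 1 := by
      have : ((Pq b B1 B2 a0 c0 q).card : ℝ) ≤ ((B2 / nm (v q) + 1 : ℕ) : ℝ) := by exact_mod_cast v5
      push_cast at this
      have h7 := Nat.cast_div_le (α := ℝ) (m := B2) (n := nm (v q))
      linarith
    have e2 : nm (v q) ≤ B2 := by unfold nm; rw [max_le_iff]; omega
    have e3 : (nm (v q) : ℝ) ≤ B2 := by exact_mod_cast e2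
    have e4 : (1 : ℝ) ≤ B2 / nm (v q) := by rw [le_div_iff₀ e0]; linarith
    refine ⟨?_, ?_⟩
    · rw [mul_one_div, mul_div_assoc]; linarith
    · have e5 : K < B2 / nm (v q) := by linarith [hq.2]
      rw [lt_div_iff₀ e0] at e5
      rw [le_div_iff₀ (by linarith)]
      linarith
  have hinj : Set.InjOn v Q2 := by
    intro q hq q' hq' hqq
    obtain ⟨v1, v2, v3, v4, _⟩ := hv q hq
    obtain ⟨_, _, _, v4', _⟩ := hv q' hq'
    rw [← hqq] at v4'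
    have m1 := (mem_filter.mp hq).1
    have m2 := (mem_filter.mp hq').1
    exact inj_C (hB12.trans hb2) hb2 hB (hQ q m1).1 (hQ q' m2).1 (hQ q m1).2.2 (hQ q' m2).2.2
      v1 v2 v3 v4 v4'
  have hB20 : (0 : ℝ) ≤ B2 / K := by positivity
  calc ∑ q ∈ Q2, ((Pq b B1 B2 a0 c0 q).card : ℝ) ≤ ∑ q ∈ Q2, 2 * (B2 : ℝ) * (1 / nm (v q)) :=
        Finset.sum_le_sum fun q hq => (hle q hq).1
    _ = ∑ w ∈ Q2.image v, 2 * (B2 : ℝ) * (1 / nm w) := by rw [Finset.sum_image hinj]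
    _ ≤ ∑ w ∈ Vn ⌊(B2 : ℝ) / K⌋₊, 2 * (B2 : ℝ) * (1 / nm w) := by
        refine Finset.sum_le_sum_of_subset_of_nonneg ?_ fun _ _ _ => by positivity
        intro w hw
        obtain ⟨q, hq, rfl⟩ := Finset.mem_image.mp hw
        exact mem_Vn (hv q hq).1 (Nat.le_floor (hle q hq).2)
    _ = 2 * (B2 : ℝ) * ∑ w ∈ Vn ⌊(B2 : ℝ) / K⌋₊, (1 : ℝ) / nm w := by rw [Finset.mul_sum]
    _ ≤ 2 * (B2 : ℝ) * (12 * ⌊(B2 : ℝ) / K⌋₊) :=
        mul_le_mul_of_nonneg_left (sum_Vn _) (by positivity)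
    _ ≤ 2 * (B2 : ℝ) * (12 * (B2 / K)) := by
        refine mul_le_mul_of_nonneg_left ?_ (by positivity)
        have := Nat.floor_le hB20
        linarith
    _ = _ := by ring

end Pool.Agent.Zk78.TD
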