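import Pool.Agent.Zk78.TD.SQ0

/-! The primes with many points, for all flat boxes. -/

set_option autoImplicit false

open Finset

namespace Pool.Agent.Zk78.TD

/-- the norm of a vector scaled by the sides of the box -/
def nm2 (B1 B2 m n : ℕ) : ℕ := max (m * B2) (n * B1)

/-- case C -/
lemma card_C2 {b B1 B2 a0 c0 q : ℕ} (h1 : 0 < B1) (h2 : 0 < B2) (hq : q.Prime) (hqb : ¬ q ∣ b)
    (hqB : 2 * B1 * B2 < q ^ 2) (hc : 2 ≤ (Pq b B1 B2 a0 c0 q).card) :
    ∃ v : ℤ × ℤ, 0 < nm v ∧ v.1.natAbs < B1 ∧ v.2.natAbs < B2 ∧ ((q : ℤ) ^ 2) ∣ lf b v.1 v.2 ∧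
      ((Pq b B1 B2 a0 c0 q).card : ℝ) ≤ (B1 * B2 : ℝ) / nm2 B1 B2 v.1.natAbs v.2.natAbs + 1 := by
  classical
  set S := Pq b B1 B2 a0 c0 q with hS
  have hne : S.offDiag.Nonempty := by
    obtain ⟨x, hx, y, hy, hxy⟩ := Finset.one_lt_card.mp (by omega : 1 < S.card)
    exact ⟨(x, y), Finset.mem_offDiag.mpr ⟨hx, hy, hxy⟩⟩
  set N : (ℕ × ℕ) × (ℕ × ℕ) → ℕ := fun e =>
    nm2 B1 B2 ((e.1.1 : ℤ) - e.2.1).natAbs ((e.1.2 : ℤ) - e.2.2).natAbs with hN
  obtain ⟨e, he, hmin⟩ := Finset.exists_min_image S.offDiag N hne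
  rw [Finset.mem_offDiag] at he
  obtain ⟨hx, hx', hxx⟩ := he
  have hx0 := hx
  have hx0' := hx'
  rw [hS, mem_Pq] at hx hx'
  set u := (e.1.1 : ℤ) - e.2.1 with hu
  set w := (e.1.2 : ℤ) - e.2.2 with hw
  have hor : 0 < u.natAbs ∨ 0 < w.natAbs := by
    by_contra hcon
    push Not at hcon
    apply hxx
    refine Prod.ext ?_ ?_
    · have := hcon.1; omega
    · have := hcon.2; omega
  refine ⟨(u, w), ?_, ?_, ?_, dvd_lf hx.2.2 hx'.2.2, ?_⟩
  · unfold nm; rw [lt_max_iff]; exact hor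
  · simp only; omega
  · simp only; omega
  · have key : ∀ y ∈ S, ∀ y' ∈ S, y ≠ y' →
        nm2 B1 B2 u.natAbs w.natAbs ≤
          nm2 B1 B2 ((y.1 : ℤ) - y'.1).natAbs ((y.2 : ℤ) - y'.2).natAbs ∧
          u * ((y.2 : ℤ) - y'.2) = ((y.1 : ℤ) - y'.1) * w := by
      intro y hy y' hy' hyy
      refine ⟨?_, det_zero hq hqb hqB hx0 hx0' hy hy'⟩
      exact hmin (y, y') (Finset.mem_offDiag.mpr ⟨hy, hy', hyy⟩)
    simp only
    rcases le_total (w.natAbs * B1) (u.natAbs * B2) with huw | huw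
    · have hnm : nm2 B1 B2 u.natAbs w.natAbs = u.natAbs * B2 := by unfold nm2; exact max_eq_left huw
      have hu0 : 0 < u.natAbs := by
        rcases hor with h | h
        · exact h
        · rcases Nat.eq_zero_or_pos u.natAbs with h0 | h0
          · rw [h0, zero_mul] at huw
            have : 0 < w.natAbs * B1 := Nat.mul_pos h h1
            omega
          · exact h0
      have hcd : S.card ≤ B1 / u.natAbs + 1 := by
        refine sep_card S (fun z => z.1) a0 B1 u.natAbs hu0 ?_ ?_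
        · intro z hz; rw [hS, mem_Pq] at hz; exact hz.1
        · intro y hy y' hy' hyy
          obtain ⟨k1, k2⟩ := key y hy y' hy' hyy
          set s := (y.1 : ℤ) - y'.1 with hs
          set t := (y.2 : ℤ) - y'.2 with ht
          have k3 : u.natAbs * t.natAbs = s.natAbs * w.natAbs := by
            rw [← Int.natAbs_mul, ← Int.natAbs_mul, k2]
          have k4 : t.natAbs * B1 ≤ s.natAbs * B2 := by
            have k5 : u.natAbs * (t.natAbs * B1) ≤ u.natAbs * (s.natAbs * B2) := by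
              calc u.natAbs * (t.natAbs * B1) = (u.natAbs * t.natAbs) * B1 := by ring
                _ = s.natAbs * (w.natAbs * B1) := by rw [k3]; ring
                _ ≤ s.natAbs * (u.natAbs * B2) := Nat.mul_le_mul_left _ huw
                _ = _ := by ring
            exact Nat.le_of_mul_le_mul_left k5 hu0
          have k6 : nm2 B1 B2 s.natAbs t.natAbs = s.natAbs * B2 := by
            unfold nm2; exact max_eq_left k4
          rw [k6, hnm] at k1
          have k7 : u.natAbs ≤ s.natAbs := Nat.le_of_mul_le_mul_right k1 h2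
          show ((u.natAbs : ℕ) : ℤ) ≤ |s|
          rw [Int.abs_eq_natAbs]
          exact_mod_cast k7
      have hu0' : (0 : ℝ) < u.natAbs := by exact_mod_cast hu0
      have hB2' : (0 : ℝ) < B2 := by exact_mod_cast h2
      have h3 := Nat.cast_div_le (α := ℝ) (m := B1) (n := u.natAbs)
      have h4 : (S.card : ℝ) ≤ ((B1 / u.natAbs + 1 : ℕ) : ℝ) := by exact_mod_cast hcd
      rw [hnm]
      push_cast at h4 ⊢
      have h5 : (B1 : ℝ) * B2 / ((u.natAbs : ℝ) * B2) = B1 / u.natAbs := by field_simp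
      have h6 : ((u.natAbs : ℕ) : ℝ) = |(u : ℝ)| := by rw [Nat.cast_natAbs]; push_cast; rfl
      rw [h6] at h3 h5
      simp only [h6] at *
      linarith
    · have hnm : nm2 B1 B2 u.natAbs w.natAbs = w.natAbs * B1 := by unfold nm2; exact max_eq_right huw
      have hw0 : 0 < w.natAbs := by
        rcases hor with h | h
        · rcases Nat.eq_zero_or_pos w.natAbs with h0 | h0
          · rw [h0, zero_mul] at huw
            have : 0 < u.natAbs * B2 := Nat.mul_pos h h2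
            omega
          · exact h0
        · exact h
      have hcd : S.card ≤ B2 / w.natAbs + 1 := by
        refine sep_card S (fun z => z.2) c0 B2 w.natAbs hw0 ?_ ?_
        · intro z hz; rw [hS, mem_Pq] at hz; exact hz.2.1
        · intro y hy y' hy' hyy
          obtain ⟨k1, k2⟩ := key y hy y' hy' hyy
          set s := (y.1 : ℤ) - y'.1 with hs
          set t := (y.2 : ℤ) - y'.2 with ht
          have k3 : u.natAbs * t.natAbs = s.natAbs * w.natAbs := by
            rw [← Int.natAbs_mul, ← Int.natAbs_mul, k2]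
          have k4 : s.natAbs * B2 ≤ t.natAbs * B1 := by
            have k5 : w.natAbs * (s.natAbs * B2) ≤ w.natAbs * (t.natAbs * B1) := by
              calc w.natAbs * (s.natAbs * B2) = (s.natAbs * w.natAbs) * B2 := by ring
                _ = t.natAbs * (u.natAbs * B2) := by rw [← k3]; ring
                _ ≤ t.natAbs * (w.natAbs * B1) := Nat.mul_le_mul_left _ huw
                _ = _ := by ring
            exact Nat.le_of_mul_le_mul_left k5 hw0
          have k6 : nm2 B1 B2 s.natAbs t.natAbs = t.natAbs * B1 := by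
            unfold nm2; exact max_eq_right k4
          rw [k6, hnm] at k1
          have k7 : w.natAbs ≤ t.natAbs := Nat.le_of_mul_le_mul_right k1 h1
          show ((w.natAbs : ℕ) : ℤ) ≤ |t|
          rw [Int.abs_eq_natAbs]
          exact_mod_cast k7
      have hw0' : (0 : ℝ) < w.natAbs := by exact_mod_cast hw0
      have hB1' : (0 : ℝ) < B1 := by exact_mod_cast h1
      have h3 := Nat.cast_div_le (α := ℝ) (m := B2) (n := w.natAbs)
      have h4 : (S.card : ℝ) ≤ ((B2 / w.natAbs + 1 : ℕ) : ℝ) := by exact_mod_cast hcd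
      rw [hnm]
      have h4' : (S.card : ℝ) ≤ ((B2 / w.natAbs : ℕ) : ℝ) + 1 := by rw [Nat.cast_add, Nat.cast_one] at h4; exact h4
      rw [Nat.cast_mul]
      have h5 : (B1 : ℝ) * B2 / ((w.natAbs : ℝ) * B1) = B2 / w.natAbs := by field_simp
      rw [h5]
      linarith

lemma sum_inv_le (n : ℕ) : ∑ m ∈ Icc 1 n, (1 : ℝ) / m ≤ 2 * √(n : ℝ) := by
  induction n with
  | zero => simp
  | succ n ih =>
    rw [Finset.sum_Icc_succ_top (by omega)]
    have h1 : (0 : ℝ) ≤ n := by positivity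
    have h2 := Real.sq_sqrt h1
    have h3 := Real.sq_sqrt (by positivity : (0 : ℝ) ≤ ((n + 1 : ℕ) : ℝ))
    have h4 := Real.sqrt_nonneg (n : ℝ)
    have h5 : (0 : ℝ) < √((n + 1 : ℕ) : ℝ) := Real.sqrt_pos.mpr (by positivity)
    have h6 : √(n : ℝ) ≤ √((n + 1 : ℕ) : ℝ) := Real.sqrt_le_sqrt (by push_cast; linarith)
    have h7 : (1 : ℝ) ≤ √((n + 1 : ℕ) : ℝ) := by
      rw [Real.one_le_sqrt]; push_cast; linarith
    have h8 : (1 : ℝ) / ((n + 1 : ℕ) : ℝ) ≤ 2 * √((n + 1 : ℕ) : ℝ) - 2 * √(n : ℝ) := by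
      rw [div_le_iff₀ (by positivity)]
      have h9 : (√((n + 1 : ℕ) : ℝ) - √(n : ℝ)) * (√((n + 1 : ℕ) : ℝ) + √(n : ℝ)) = 1 := by
        have h90 : (√((n + 1 : ℕ) : ℝ) - √(n : ℝ)) * (√((n + 1 : ℕ) : ℝ) + √(n : ℝ)) =
            √((n + 1 : ℕ) : ℝ) ^ 2 - √(n : ℝ) ^ 2 := by ring
        rw [h90, h2, h3]; push_cast; ring
      have h10 : (0 : ℝ) ≤ √((n + 1 : ℕ) : ℝ) - √(n : ℝ) := by linarith
      have h11 : √((n + 1 : ℕ) : ℝ) + √(n : ℝ) ≤ 2 * ((n + 1 : ℕ) : ℝ) := by
        nlinarith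
      nlinarith
    linarith

/-- the sum over the short vectors -/
lemma sum_F {B1 B2 n1 n2 : ℕ} (h1 : 0 < B1) (h2 : 0 < B2) :
    ∑ p ∈ ((range (n1 + 1)) ×ˢ (range (n2 + 1))).filter (fun p => 0 < nm2 B1 B2 p.1 p.2),
      (1 : ℝ) / nm2 B1 B2 p.1 p.2 ≤ (n1 : ℝ) / B1 + n2 / B2 + 2 * √(n1 : ℝ) / B2 +
        2 * √(n2 : ℝ) / B1 := by
  classical
  have hB1 : (0 : ℝ) < B1 := by exact_mod_cast h1
  have hB2 : (0 : ℝ) < B2 := by exact_mod_cast h2
  set D := (range (n1 + 1)) ×ˢ (range (n2 + 1)) with hD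
  have hpt : ∀ p ∈ D.filter (fun p => 0 < nm2 B1 B2 p.1 p.2), (1 : ℝ) / nm2 B1 B2 p.1 p.2 ≤
      (if 0 < p.1 ∧ p.2 * B1 ≤ p.1 * B2 then (1 : ℝ) / (p.1 * B2) else 0) +
      (if 0 < p.2 ∧ p.1 * B2 ≤ p.2 * B1 then (1 : ℝ) / (p.2 * B1) else 0) := by
    intro p hp
    have hp0 := (mem_filter.mp hp).2
    rcases le_total (p.2 * B1) (p.1 * B2) with h | h
    · have e1 : nm2 B1 B2 p.1 p.2 = p.1 * B2 := by unfold nm2; exact max_eq_left h
      have e2 : 0 < p.1 := by
        rw [e1] at hp0; exact Nat.pos_of_ne_zero (fun h0 => by rw [h0, zero_mul] at hp0; omega)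
      rw [if_pos (⟨e2, h⟩ : 0 < p.1 ∧ p.2 * B1 ≤ p.1 * B2), e1]
      have : (0 : ℝ) ≤ if 0 < p.2 ∧ p.1 * B2 ≤ p.2 * B1 then (1 : ℝ) / (p.2 * B1) else 0 := by
        split_ifs <;> positivity
      push_cast
      linarith
    · have e1 : nm2 B1 B2 p.1 p.2 = p.2 * B1 := by unfold nm2; exact max_eq_right h
      have e2 : 0 < p.2 := by
        rw [e1] at hp0; exact Nat.pos_of_ne_zero (fun h0 => by rw [h0, zero_mul] at hp0; omega)
      rw [if_pos (⟨e2, h⟩ : 0 < p.2 ∧ p.1 * B2 ≤ p.2 * B1), e1]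
      have : (0 : ℝ) ≤ if 0 < p.1 ∧ p.2 * B1 ≤ p.1 * B2 then (1 : ℝ) / (p.1 * B2) else 0 := by
        split_ifs <;> positivity
      push_cast
      linarith
  have hin : ∀ (N A B m : ℕ), 0 < A → 0 < B → ∑ n ∈ range (N + 1),
      (if 0 < m ∧ n * A ≤ m * B then (1 : ℝ) / (m * B) else 0) ≤
        if 0 < m then (1 : ℝ) / A + (1 / B) * (1 / m) else 0 := by
    intro N A B m hA hB
    by_cases hm : 0 < m
    · rw [if_pos hm, ← Finset.sum_filter, Finset.sum_const, nsmul_eq_mul]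
      have hA' : (0 : ℝ) < A := by exact_mod_cast hA
      have hB' : (0 : ℝ) < B := by exact_mod_cast hB
      have hm' : (0 : ℝ) < m := by exact_mod_cast hm
      have c1 : ((range (N + 1)).filter (fun n => 0 < m ∧ n * A ≤ m * B)).card ≤ m * B / A + 1 := by
        rw [← Finset.card_range (m * B / A + 1)]
        refine Finset.card_le_card ?_
        intro n hn
        rw [mem_filter] at hn
        rw [mem_range, Nat.lt_add_one_iff]
        exact (Nat.le_div_iff_mul_le hA).mpr hn.2.2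
      have c2 : ((((range (N + 1)).filter (fun n => 0 < m ∧ n * A ≤ m * B)).card : ℕ) : ℝ) ≤
          ((m * B / A : ℕ) : ℝ) + 1 := by exact_mod_cast c1
      have c3 := Nat.cast_div_le (α := ℝ) (m := m * B) (n := A)
      push_cast at c3
      have c4 : ((((range (N + 1)).filter (fun n => 0 < m ∧ n * A ≤ m * B)).card : ℕ) : ℝ) ≤
          m * B / A + 1 := by linarith
      calc _ ≤ ((m : ℝ) * B / A + 1) * (1 / (m * B)) :=
            mul_le_mul_of_nonneg_right c4 (by positivity)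
        _ = _ := by field_simp
    · rw [if_neg hm]
      refine le_of_eq (Finset.sum_eq_zero fun n _ => ?_)
      rw [if_neg (fun h => hm h.1)]
  have hout : ∀ (N A B : ℕ), 0 < A → 0 < B → ∑ m ∈ range (N + 1),
      (if 0 < m then (1 : ℝ) / A + (1 / B) * (1 / m) else 0) ≤ N / A + 2 * √(N : ℝ) / B := by
    intro N A B hA hB
    have hB' : (0 : ℝ) < B := by exact_mod_cast hB
    rw [← Finset.sum_filter]
    have e1 : (range (N + 1)).filter (fun m => 0 < m) = Icc 1 N := by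
      ext m; simp only [mem_filter, mem_range, mem_Icc]; omega
    rw [e1, Finset.sum_add_distrib, Finset.sum_const, Nat.card_Icc, Nat.add_sub_cancel,
      nsmul_eq_mul, ← Finset.mul_sum]
    have e2 := sum_inv_le N
    have e3 : (1 / (B : ℝ)) * ∑ m ∈ Icc 1 N, (1 : ℝ) / m ≤ (1 / (B : ℝ)) * (2 * √(N : ℝ)) :=
      mul_le_mul_of_nonneg_left e2 (by positivity)
    calc _ ≤ (N : ℝ) * (1 / A) + (1 / (B : ℝ)) * (2 * √(N : ℝ)) := by linarith
      _ = _ := by ring
  refine (Finset.sum_le_sum hpt).trans ?_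
  refine (Finset.sum_le_sum_of_subset_of_nonneg (Finset.filter_subset _ _) ?_).trans ?_
  · intro p _ _
    have a1 : (0 : ℝ) ≤ if 0 < p.2 ∧ p.1 * B2 ≤ p.2 * B1 then (1 : ℝ) / (p.2 * B1) else 0 := by
      split_ifs <;> positivity
    have a2 : (0 : ℝ) ≤ if 0 < p.1 ∧ p.2 * B1 ≤ p.1 * B2 then (1 : ℝ) / (p.1 * B2) else 0 := by
      split_ifs <;> positivity
    linarith
  · rw [Finset.sum_add_distrib]
    have f1 : ∑ p ∈ D, (if 0 < p.1 ∧ p.2 * B1 ≤ p.1 * B2 then (1 : ℝ) / (p.1 * B2) else 0) ≤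
        n1 / B1 + 2 * √(n1 : ℝ) / B2 := by
      rw [hD, Finset.sum_product]
      exact (Finset.sum_le_sum fun m _ => hin n2 B1 B2 m h1 h2).trans (hout n1 B1 B2 h1 h2)
    have f2 : ∑ p ∈ D, (if 0 < p.2 ∧ p.1 * B2 ≤ p.2 * B1 then (1 : ℝ) / (p.2 * B1) else 0) ≤
        n2 / B2 + 2 * √(n2 : ℝ) / B1 := by
      rw [hD, Finset.sum_product_right]
      exact (Finset.sum_le_sum fun m _ => hin n1 B2 B1 m h2 h1).trans (hout n2 B2 B1 h2 h1)
    linarith

end Pool.Agent.Zk78.TD
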